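import Pool.Agent.K9h35.MZ.Univ

/-!
Congruences between the values of the twisted `L`-functions with different conductors.
-/

set_option autoImplicit false

namespace Pool.Agent.K9h35.MZ

open Finset Pool.Agent.X252.MT

section comb

/-- the alternating sums -/
def alt (b : Finset ℕ → ℂ) (t : Finset ℕ) : ℂ := ∑ s ∈ t.powerset, (-1) ^ (t \ s).card * b s

lemma alt_indicator (s T : Finset ℕ) (h : s ⊆ T) (k : ℕ) (hk : k < T.card) (hs : s.card ≤ k) :
    ∑ t ∈ T.powerset.filter (fun t => t.card ≤ k ∧ s ⊆ t), ((-1 : ℂ)) ^ (t \ s).card =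
      (-1) ^ (k - s.card) * ((T.card - s.card - 1).choose (k - s.card) : ℕ) := by
  classical
  have h1 : ∑ t ∈ T.powerset.filter (fun t => t.card ≤ k ∧ s ⊆ t), ((-1 : ℂ)) ^ (t \ s).card =
      ∑ u ∈ (T \ s).powerset, (if u.card ≤ k - s.card then (-1 : ℂ) ^ u.card else 0) := by
    rw [← Finset.sum_filter]
    refine Finset.sum_bij' (fun t _ => t \ s) (fun u _ => s ∪ u) ?_ ?_ ?_ ?_ ?_
    · intro t ht
      rw [Finset.mem_filter, Finset.mem_powerset] at ht
      rw [Finset.mem_filter, Finset.mem_powerset]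
      refine ⟨Finset.sdiff_subset_sdiff ht.1 le_rfl, ?_⟩
      rw [Finset.card_sdiff_of_subset ht.2.2]
      omega
    · intro u hu
      rw [Finset.mem_filter, Finset.mem_powerset] at hu
      rw [Finset.mem_filter, Finset.mem_powerset]
      refine ⟨Finset.union_subset h (hu.1.trans Finset.sdiff_subset), ?_, Finset.subset_union_left⟩
      have := Finset.card_union_le s u
      omega
    · intro t ht
      rw [Finset.mem_filter] at ht
      exact Finset.union_sdiff_of_subset ht.2.2
    · intro u hu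
      rw [Finset.mem_filter, Finset.mem_powerset] at hu
      ext x
      simp only [Finset.mem_sdiff, Finset.mem_union]
      constructor
      · rintro ⟨h1 | h1, h2⟩
        · exact absurd h1 h2
        · exact h1
      · intro h1
        exact ⟨Or.inr h1, (Finset.mem_sdiff.1 (hu.1 h1)).2⟩
    · intro t ht
      rfl
  rw [h1, Finset.sum_powerset_apply_card (fun j => if j ≤ k - s.card then (-1 : ℂ) ^ j else 0),
    Finset.card_sdiff_of_subset h]
  have h2 : T.card - s.card = (T.card - s.card - 1) + 1 := by omega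
  have h3 := Int.alternating_sum_range_choose_eq_choose (n := T.card - s.card - 1)
    (m := k - s.card)
  rw [← h2] at h3
  have h4 := congrArg (Int.cast : ℤ → ℂ) h3
  push_cast at h4
  rw [← h4]
  have h5 : range (k - s.card + 1) ⊆ range (T.card - s.card + 1) := by
    apply Finset.range_mono
    omega
  rw [← Finset.sum_subset h5]
  · refine Finset.sum_congr rfl fun j hj => ?_
    rw [Finset.mem_range] at hj
    rw [if_pos (by omega), nsmul_eq_mul]
    ring
  · intro j _ hj
    rw [Finset.mem_range] at hj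
    rw [if_neg (by omega), smul_zero]

lemma alt_indicator' (s T : Finset ℕ) (h : s ⊆ T) :
    ∑ t ∈ T.powerset.filter (fun t => True ∧ s ⊆ t), ((-1 : ℂ)) ^ (t \ s).card =
      if s = T then 1 else 0 := by
  classical
  have h1 : ∑ t ∈ T.powerset.filter (fun t => True ∧ s ⊆ t), ((-1 : ℂ)) ^ (t \ s).card =
      ∑ u ∈ (T \ s).powerset, (-1 : ℂ) ^ u.card := by
    refine Finset.sum_bij' (fun t _ => t \ s) (fun u _ => s ∪ u) ?_ ?_ ?_ ?_ ?_
    · intro t ht
      rw [Finset.mem_filter, Finset.mem_powerset] at ht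
      rw [Finset.mem_powerset]
      exact Finset.sdiff_subset_sdiff ht.1 le_rfl
    · intro u hu
      rw [Finset.mem_powerset] at hu
      rw [Finset.mem_filter, Finset.mem_powerset]
      exact ⟨Finset.union_subset h (hu.trans Finset.sdiff_subset), trivial,
        Finset.subset_union_left⟩
    · intro t ht
      rw [Finset.mem_filter] at ht
      exact Finset.union_sdiff_of_subset ht.2.2
    · intro u hu
      rw [Finset.mem_powerset] at hu
      ext x
      simp only [Finset.mem_sdiff, Finset.mem_union]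
      constructor
      · rintro ⟨h1 | h1, h2⟩
        · exact absurd h1 h2
        · exact h1
      · intro h1
        exact ⟨Or.inr h1, (Finset.mem_sdiff.1 (hu h1)).2⟩
    · intro t ht
      rfl
  rw [h1]
  have h2 := Finset.sum_powerset_neg_one_pow_card (x := T \ s)
  have h3 := congrArg (Int.cast : ℤ → ℂ) h2
  push_cast at h3
  rw [h3]
  by_cases h4 : s = T
  · rw [if_pos h4, if_pos (by rw [h4, Finset.sdiff_self])]
  · rw [if_neg h4, if_neg fun h5 => h4 (h.antisymm (Finset.sdiff_eq_empty_iff_subset.1 h5))]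

lemma swap (b : Finset ℕ → ℂ) (T : Finset ℕ) (P : Finset ℕ → Prop) [DecidablePred P] :
    ∑ t ∈ T.powerset.filter P, alt b t = ∑ s ∈ T.powerset,
      (∑ t ∈ T.powerset.filter (fun t => P t ∧ s ⊆ t), ((-1 : ℂ)) ^ (t \ s).card) * b s := by
  classical
  have h1 : ∀ t ∈ T.powerset.filter P, alt b t =
      ∑ s ∈ T.powerset, if s ⊆ t then ((-1 : ℂ)) ^ (t \ s).card * b s else 0 := by
    intro t ht
    rw [Finset.mem_filter, Finset.mem_powerset] at ht
    rw [← Finset.sum_filter]
    unfold alt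
    refine Finset.sum_congr ?_ fun _ _ => rfl
    ext s
    rw [Finset.mem_filter, Finset.mem_powerset, Finset.mem_powerset]
    exact ⟨fun h => ⟨h.trans ht.1, h⟩, fun h => h.2⟩
  rw [Finset.sum_congr rfl h1, Finset.sum_comm]
  refine Finset.sum_congr rfl fun s _ => ?_
  rw [← Finset.sum_filter, Finset.filter_filter, Finset.sum_mul]

/-- Moebius inversion -/
lemma sum_alt (b : Finset ℕ → ℂ) (T : Finset ℕ) : ∑ t ∈ T.powerset, alt b t = b T := by
  classical
  have h1 := swap b T (fun _ => True)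
  rw [Finset.filter_true] at h1
  rw [h1, Finset.sum_eq_single T]
  · rw [alt_indicator' T T le_rfl, if_pos rfl, one_mul]
  · intro s hs hne
    rw [Finset.mem_powerset] at hs
    rw [alt_indicator' s T hs, if_neg hne, zero_mul]
  · intro h
    exact absurd (Finset.mem_powerset_self T) h

/-- the combination of the values for the sets with at most `k` elements -/
def low (b : Finset ℕ → ℂ) (T : Finset ℕ) (k : ℕ) : ℂ :=
  ∑ s ∈ T.powerset.filter (fun s => s.card ≤ k),
    (-1) ^ (k - s.card) * ((T.card - s.card - 1).choose (k - s.card) : ℕ) * b s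

lemma low_eq (b : Finset ℕ → ℂ) (T : Finset ℕ) {k : ℕ} (hk : k < T.card) :
    low b T k = ∑ t ∈ T.powerset.filter (fun t => t.card ≤ k), alt b t := by
  classical
  rw [swap]
  unfold low
  rw [Finset.sum_filter]
  refine Finset.sum_congr rfl fun s hs => ?_
  rw [Finset.mem_powerset] at hs
  by_cases h : s.card ≤ k
  · rw [if_pos h, alt_indicator s T hs k hk h]
  · rw [if_neg h, Finset.sum_eq_zero, zero_mul]
    intro t ht
    rw [Finset.mem_filter] at ht
    exact absurd ((Finset.card_le_card ht.2.2).trans ht.2.1) h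

end comb

section cong

variable {W : WeierstrassCurve ℤ} {p : ℕ} (hp : p.Prime)

/-- the values of the elements of the powers of the augmentation ideal -/
lemma aug_PP {X : Type} [CommGroup X] {n k : ℕ} (χ : X) (hχ : χ ^ p ^ n = 1)
    {z : MonoidAlgebra (Zp p hp) (Du X)} (hz : z ∈ Aug (Zp p hp) (Du X) ^ k) :
    chi χ z ∈ PP (Oz hp n) (zeta p n - 1) k := by
  have hr : ∀ σ : Du X, (σ χ : ℂ) ^ p ^ n = 1 := by
    intro σ
    rw [← Units.val_pow_eq_pow_val, ← map_pow, hχ, map_one, Units.val_one]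
  have hm : ∀ z : MonoidAlgebra (Zp p hp) (Du X), chi χ z ∈ Oz hp n := by
    intro z
    induction z using MonoidAlgebra.induction_on with
    | of σ => rw [chi_of]; exact (root_mem hp n (hr σ)).1
    | add x y hx hy => rw [map_add]; exact (Oz hp n).add_mem hx hy
    | smul r x hx =>
      rw [map_smul, Subring.smul_def, smul_eq_mul]
      exact (Oz hp n).mul_mem (zp_le hp n r.2) hx
  let f : MonoidAlgebra (Zp p hp) (Du X) →+* Oz hp n :=
    ((chi χ : MonoidAlgebra (Zp p hp) (Du X) →ₐ[Zp p hp] ℂ) :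
      MonoidAlgebra (Zp p hp) (Du X) →+* ℂ).codRestrict (Oz hp n) hm
  have hf : ∀ z, ((f z : Oz hp n) : ℂ) = chi χ z := fun z => rfl
  let π : Oz hp n := ⟨zeta p n - 1, pi_mem hp n⟩
  have h1 : Aug (Zp p hp) (Du X) ≤ (Ideal.span {π}).comap f := by
    unfold Aug
    rw [Ideal.span_le]
    rintro _ ⟨σ, rfl⟩
    obtain ⟨y, hy, h2⟩ := (root_mem hp n (hr σ)).2
    show f _ ∈ Ideal.span {π}
    rw [Ideal.mem_span_singleton]
    refine ⟨⟨y, hy⟩, Subtype.ext ?_⟩
    rw [hf, map_sub, map_one, chi_of, h2]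
    rfl
  have h2 : Aug (Zp p hp) (Du X) ^ k ≤ (Ideal.span {π} ^ k).comap f :=
    (Ideal.pow_right_mono h1 k).trans (Ideal.le_comap_pow f k)
  have h3 : f z ∈ Ideal.span {π} ^ k := h2 hz
  rw [Ideal.span_singleton_pow, Ideal.mem_span_singleton] at h3
  obtain ⟨y, hy⟩ := h3
  refine ⟨y, y.2, ?_⟩
  have h4 := congrArg Subtype.val hy
  rw [← hf, h4]
  rfl

/-- **the congruence for the alternating sum** -/
theorem alt_PP {Ω : ℂ} (hΩ : Ω ≠ 0)
    {θ : (F : Fld W p) → MonoidAlgebra (Zp p hp) (Du F.X)} (hθ : ∀ F, IsTheta F Ω (θ F))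
    (F : Fld W p) {n : ℕ} {c : Fam} (hc : c ∈ F.X) (hcn : c ^ p ^ n = 1) {T : Finset ℕ}
    (hT : ∀ q, q ∈ T ↔ c q ≠ 1) {b : Finset ℕ → ℂ}
    (hb : ∀ s ⊆ T, IsNorm W Ω s (cut s c) (b s)) {t : Finset ℕ} (ht : t ⊆ T) :
    alt b t ∈ PP (Oz hp n) (zeta p n - 1) t.card := by
  classical
  set G := box F F.T (Finset.Subset.refl _) with hG
  let χ : G.X := ⟨c, le_box F hc⟩
  have hχ : χ ^ p ^ n = 1 := Subtype.ext hcn
  have h1 : ∀ s ⊆ T, b s = chi (∏ q ∈ s, cq F q χ) (ww hp θ G) := by
    intro s hs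
    refine (norm_val hp hΩ hθ G _ s (fun q => ?_) (b s)).1 ?_
    · rw [prod_cq]
      by_cases hq : q ∈ s
      · rw [cut_of hq]
        exact ⟨fun _ => (hT q).1 (hs hq), fun _ => hq⟩
      · rw [cut_not hq]
        exact ⟨fun h => absurd h hq, fun h => absurd rfl h⟩
    · rw [prod_cq]
      exact hb s hs
  have h2 := aug_PP hp χ hχ (DT_mem (A := Zp p hp) (fun q => rs (cq F q)) t (ww hp θ G))
  have h3 : chi χ (DT (Zp p hp) (fun q => rs (cq F q)) t (ww hp θ G)) = alt b t := by
    unfold DT alt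
    rw [LinearMap.sum_apply, map_sum]
    refine Finset.sum_congr rfl fun s hs => ?_
    rw [Finset.mem_powerset] at hs
    rw [LinearMap.smul_apply, AlgHom.toLinearMap_apply, map_smul, Subring.smul_def, smul_eq_mul,
      h1 s (hs.trans ht)]
    have h4 : chi χ (ET (Zp p hp) (fun q => rs (cq F q)) s (ww hp θ G)) =
        chi (∏ q ∈ s, cq F q χ) (ww hp θ G) := by
      have h5 : (∏ q ∈ s, rs (cq F q) : Du G.X →* Du G.X) = rs (∏ q ∈ s, cq F q) := by
        refine MonoidHom.ext fun σ => ?_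
        ext x
        rw [du_prod]
        have h6 : ∏ q ∈ s, (rs (cq F q) σ) x = σ (∏ q ∈ s, cq F q x) := (map_prod σ _ _).symm
        rw [h6, rs_apply, MonoidHom.finsetProd_apply]
      unfold ET
      rw [h5, chi_mp, MonoidHom.finsetProd_apply]
    rw [h4]
    push_cast
    rfl
  rw [← h3]
  exact h2

/-- **the values are determined by those with few ramified primes** -/
theorem low_PP {Ω : ℂ} (hΩ : Ω ≠ 0)
    {θ : (F : Fld W p) → MonoidAlgebra (Zp p hp) (Du F.X)} (hθ : ∀ F, IsTheta F Ω (θ F))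
    (F : Fld W p) {n : ℕ} {c : Fam} (hc : c ∈ F.X) (hcn : c ^ p ^ n = 1) {T : Finset ℕ}
    (hT : ∀ q, q ∈ T ↔ c q ≠ 1) {b : Finset ℕ → ℂ}
    (hb : ∀ s ⊆ T, IsNorm W Ω s (cut s c) (b s)) {k : ℕ} (hk : k < T.card) :
    b T - low b T k ∈ PP (Oz hp n) (zeta p n - 1) (k + 1) := by
  classical
  rw [← sum_alt b T, low_eq b T hk,
    ← Finset.sum_filter_add_sum_filter_not T.powerset (fun t => t.card ≤ k) (alt b),
    add_sub_cancel_left]
  refine AddSubgroup.sum_mem _ fun t ht => ?_
  rw [Finset.mem_filter, Finset.mem_powerset] at ht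
  exact PP_anti (pi_mem hp n) (by omega) (alt_PP hp hΩ hθ F hc hcn hT hb ht.1)

end cong

end Pool.Agent.K9h35.MZ
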