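import Pool.Agent.K9h35.MZ.Zeta

/-!
For elementary abelian groups the powers of the augmentation ideal are detected by the divisibility of
the values at the characters.
-/

set_option autoImplicit false

namespace Pool.Agent.K9h35.MZ

open Finset Pool.Agent.X252.MT Polynomial

section detect

variable {p : ℕ} (hp : p.Prime) {C : Type} [CommGroup C]

lemma chi_one (z : MonoidAlgebra (Zp p hp) (Du C)) :
    chi 1 z = ((eps (Zp p hp) (Du C) z : Zp p hp) : ℂ) := by
  induction z using MonoidAlgebra.induction_on with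
  | of σ => rw [chi_of, eps_of, map_one]; rfl
  | add x y hx hy => rw [map_add, map_add, hx, hy]; rfl
  | smul r x hx => rw [map_smul, map_smul, hx]; rfl

lemma poly_of {χ : C} (hχ : χ ^ p = 1) (u : MonoidAlgebra (Zp p hp) (Du C)) :
    ∃ U : ℚ[X], ∀ j : ℕ, chi (χ ^ j) u = aeval (zeta p 1 ^ j) U := by
  induction u using MonoidAlgebra.induction_on with
  | of σ =>
    have hne : NeZero (p ^ 1) := ⟨(pow_pos hp.pos 1).ne'⟩
    have h1 : (σ χ : ℂ) ^ p ^ 1 = 1 := by
      rw [pow_one, ← Units.val_pow_eq_pow_val, ← map_pow, hχ, map_one, Units.val_one]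
    obtain ⟨a, -, ha⟩ := (zeta_prim hp 1).eq_pow_of_pow_eq_one h1
    refine ⟨X ^ a, fun j => ?_⟩
    rw [chi_of, map_pow, Units.val_pow_eq_pow_val, ← ha, map_pow, aeval_X, ← pow_mul, ← pow_mul,
      mul_comm]
  | add x y hx hy =>
    obtain ⟨U, hU⟩ := hx
    obtain ⟨V, hV⟩ := hy
    exact ⟨U + V, fun j => by rw [map_add, map_add, hU, hV]⟩
  | smul r x hx =>
    obtain ⟨U, hU⟩ := hx
    obtain ⟨r, a, b, hb, hr⟩ := r
    refine ⟨Polynomial.C ((a : ℚ) / b) * U, fun j => ?_⟩
    rw [map_smul, map_mul, aeval_C, ← hU, Subring.smul_def, smul_eq_mul]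
    congr 1
    have hb0 : (b : ℂ) ≠ 0 := by
      intro h
      have : b = 0 := by exact_mod_cast h
      exact hb (this ▸ dvd_zero _)
    show r = algebraMap ℚ ℂ ((a : ℚ) / b)
    rw [eq_ratCast]
    push_cast
    rw [eq_div_iff hb0, mul_comm, hr]

lemma det_cyc [Finite C] {χ : C} (hχ : χ ^ p = 1) (hC : ∀ c : C, ∃ j : ℕ, c = χ ^ j) {k : ℕ}
    (w : MonoidAlgebra (Zp p hp) (Du C)) (h0 : chi 1 w = 0)
    (h : chi χ w ∈ PP (Oz hp 1) (zeta p 1 - 1) (k + 1)) :
    w ∈ Aug (Zp p hp) (Du C) ^ (k + 1) := by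
  by_cases h1 : χ = 1
  · have h2 : w = 0 := chi_sep fun c => by
      obtain ⟨j, rfl⟩ := hC c
      rw [h1, one_pow, h0]
    rw [h2]
    exact Ideal.zero_mem _
  · obtain ⟨y, hy, hy'⟩ := h
    have hfin : Fact p.Prime := ⟨hp⟩
    obtain ⟨σ, hσ⟩ : ∃ σ : Du C, (σ χ : ℂ) = zeta p 1 := by
      obtain ⟨τ, hτ⟩ := CommGroup.exists_apply_ne_one_of_hasEnoughRootsOfUnity C ℂ h1
      have hτp : (τ χ) ^ p = 1 := by rw [← map_pow, hχ, map_one]
      have h2 : orderOf (τ χ) = p := orderOf_eq_prime hτp hτ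
      have h3 : IsPrimitiveRoot (τ χ : ℂ) p := by
        have h4 := IsPrimitiveRoot.orderOf (τ χ)
        rw [h2] at h4
        exact h4.map_of_injective (f := Units.coeHom ℂ) Units.val_injective
      have hne : NeZero p := ⟨hp.ne_zero⟩
      have h5 : zeta p 1 ^ p = 1 := by
        have := (zeta_prim hp 1).pow_eq_one
        rwa [pow_one] at this
      obtain ⟨b, -, hb⟩ := h3.eq_pow_of_pow_eq_one h5
      refine ⟨(τ ^ b : C →* ℂˣ), ?_⟩
      show (((τ ^ b : C →* ℂˣ) χ : ℂˣ) : ℂ) = _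
      rw [MonoidHom.pow_apply, Units.val_pow_eq_pow_val, hb]
    have hsur : ∀ y ∈ Oz hp 1, ∃ w' : MonoidAlgebra (Zp p hp) (Du C), chi χ w' = y := by
      intro y hy
      have h2 : Oz hp 1 ≤ (chi (A := Zp p hp) χ).toRingHom.range := by
        unfold Oz
        rw [Subring.closure_le]
        rintro x (hx | hx)
        · refine ⟨algebraMap _ _ (⟨x, hx⟩ : Zp p hp), ?_⟩
          exact (chi (A := Zp p hp) χ).commutes _
        · rw [Set.mem_singleton_iff] at hx
          subst hx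
          refine ⟨MonoidAlgebra.of _ _ σ, ?_⟩
          show chi χ (MonoidAlgebra.of _ _ σ) = _
          rw [chi_of, hσ]
      exact h2 hy
    obtain ⟨w', hw'⟩ := hsur y hy
    set v := MonoidAlgebra.of (Zp p hp) _ σ - 1 with hv
    have hu : w - v ^ (k + 1) * w' = 0 := by
      obtain ⟨U, hU⟩ := poly_of hp hχ (w - v ^ (k + 1) * w')
      have hU1 : aeval (zeta p 1) U = 0 := by
        have h2 := hU 1
        rw [pow_one, pow_one] at h2
        rw [← h2, map_sub, map_mul, map_pow, hv, map_sub, map_one, chi_of, hσ, hy', hw', sub_self]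
      refine chi_sep fun c => ?_
      obtain ⟨j, rfl⟩ := hC c
      by_cases hj : p ∣ j
      · obtain ⟨i, rfl⟩ := hj
        rw [pow_mul, hχ, one_pow, map_sub, map_mul, map_pow, hv, map_sub, map_one, chi_of, h0,
          map_one, Units.val_one, sub_self, zero_pow (by omega), zero_mul, sub_zero]
      · rw [hU]
        have hcop : j.Coprime (p ^ 1) := by
          rw [pow_one]
          exact ((Nat.Prime.coprime_iff_not_dvd hp).2 hj).symm
        have hpos : 0 < p ^ 1 := pow_pos hp.pos 1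
        have h2 : minpoly ℚ (zeta p 1 ^ j) = minpoly ℚ (zeta p 1) := by
          rw [← cyclotomic_eq_minpoly_rat (zeta_prim hp 1) hpos,
            ← cyclotomic_eq_minpoly_rat ((zeta_prim hp 1).pow_of_coprime j hcop) hpos]
        have h3 := minpoly.dvd ℚ _ hU1
        rw [← h2] at h3
        obtain ⟨V, hV⟩ := h3
        rw [hV, map_mul, minpoly.aeval, zero_mul]
    rw [sub_eq_zero] at hu
    rw [hu]
    exact Ideal.mul_mem_right _ _ (Ideal.pow_mem_pow (sub_mem_aug σ) _)

/-- **detection by the divisibility of the values** -/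
theorem detect_val {X : Type} [CommGroup X] [Finite X] (hX : ∀ x : X, x ^ p = 1) {k : ℕ}
    (z : MonoidAlgebra (Zp p hp) (Du X)) (h0 : chi 1 z = 0)
    (h : ∀ χ : X, chi χ z ∈ PP (Oz hp 1) (zeta p 1 - 1) (k + 1)) :
    z ∈ Aug (Zp p hp) (Du X) ^ (k + 1) := by
  refine detectD hp (zp_good hp) (fun x => ⟨1, by rw [pow_one]; exact hX x⟩) (Or.inr hX) z
    fun χ => ?_
  refine ⟨Subgroup.zpowers χ, inferInstance, (Subgroup.zpowers χ).subtype,
    Subtype.val_injective, ⟨⟨χ, Subgroup.mem_zpowers χ⟩, rfl⟩, ?_⟩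
  refine det_cyc hp (χ := ⟨χ, Subgroup.mem_zpowers χ⟩) (Subtype.ext (hX χ)) (fun c => ?_) _ ?_ ?_
  · obtain ⟨j, hj⟩ := mem_powers_iff_mem_zpowers.2 c.2
    exact ⟨j, Subtype.ext hj.symm⟩
  · rw [chi_mp, map_one, h0]
  · rw [chi_mp]
    exact h χ

end detect

end Pool.Agent.K9h35.MZ
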