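import Pool.Agent.K9h35.MZ.Cong

/-!
The normalised values, their differences, and the order of vanishing and the leading term formula for
the fields of exponent `p` in terms of the normalised values.
-/

set_option autoImplicit false

namespace Pool.Agent.K9h35.MZ

open Finset Pool.Agent.X252.MT

section diff

variable {p : ℕ} (hp : p.Prime)

/-- **iterated differences of the values** -/
theorem diff_PP {X : Type} [CommGroup X] {n : ℕ} (hX : ∀ x : X, x ^ p ^ n = 1)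
    (z : MonoidAlgebra (Zp p hp) (Du X)) {m : ℕ} (χ : Fin m → X) (ψ : X) :
    ∑ S : Finset (Fin m), (-1) ^ (m - S.card) * chi (ψ * ∏ i ∈ S, χ i) z ∈
      PP (Oz hp n) (zeta p n - 1) m := by
  classical
  induction z using MonoidAlgebra.induction_on with
  | of σ =>
    have h1 := fun i => du_pi hp hX σ (χ i)
    choose y hy hy' using h1
    have h2 : ∑ S : Finset (Fin m), (-1) ^ (m - S.card) *
        chi (ψ * ∏ i ∈ S, χ i) (MonoidAlgebra.of (Zp p hp) (Du X) σ) =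
        (σ ψ : ℂ) * ∏ i, ((σ (χ i) : ℂ) + (-1)) := by
      rw [Finset.prod_add, Finset.powerset_univ, Finset.mul_sum]
      refine Finset.sum_congr rfl fun S _ => ?_
      rw [chi_of, map_mul, map_prod, Finset.prod_const, Finset.card_sdiff_of_subset
        (Finset.subset_univ S), Finset.card_univ, Fintype.card_fin]
      push_cast
      ring
    rw [h2]
    refine ⟨(σ ψ : ℂ) * ∏ i, y i, (Oz hp n).mul_mem (du_mem hp hX σ ψ)
      ((Oz hp n).prod_mem fun i _ => hy i), ?_⟩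
    have h3 : ∏ i, ((σ (χ i) : ℂ) + (-1)) = (zeta p n - 1) ^ m * ∏ i, y i := by
      rw [Finset.prod_congr rfl fun i _ => by rw [← sub_eq_add_neg, hy' i],
        Finset.prod_mul_distrib, Finset.prod_const, Finset.card_univ, Fintype.card_fin]
    rw [h3]
    ring
  | add x y hx hy =>
    simp only [map_add, mul_add, Finset.sum_add_distrib]
    exact AddSubgroup.add_mem _ hx hy
  | smul r x hx =>
    have h1 : ∑ S : Finset (Fin m), (-1) ^ (m - S.card) * chi (ψ * ∏ i ∈ S, χ i) (r • x) =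
        (r : ℂ) * ∑ S : Finset (Fin m), (-1) ^ (m - S.card) * chi (ψ * ∏ i ∈ S, χ i) x := by
      rw [Finset.mul_sum]
      refine Finset.sum_congr rfl fun S _ => ?_
      rw [map_smul, Subring.smul_def, smul_eq_mul]
      ring
    rw [h1]
    exact PP_mul _ _ (zp_le hp n r.2) hx

end diff

section norm

variable {W : WeierstrassCurve ℤ} {p : ℕ} (hp : p.Prime)

/-- the normalised value of a character -/
def IsNormalised (W : WeierstrassCurve ℤ) (Ω : ℂ) (c : Fam) (b : ℂ) : Prop :=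
  ∃ T : Finset ℕ, (∀ q, q ∈ T ↔ c q ≠ 1) ∧ IsNorm W Ω T c b

theorem norm_iff {Ω : ℂ} (hΩ : Ω ≠ 0) {θ : (F : Fld W p) → MonoidAlgebra (Zp p hp) (Du F.X)}
    (hθ : ∀ F, IsTheta F Ω (θ F)) (F : Fld W p) (χ : F.X) (b : ℂ) :
    IsNormalised W Ω χ b ↔ b = chi χ (ww hp θ F) := by
  constructor
  · rintro ⟨T, hT, h⟩
    exact (norm_val hp hΩ hθ F χ T hT b).1 h
  · intro h
    exact ⟨(cyc F χ χ.2).T, cyc_mem F χ.2,
      (norm_val hp hΩ hθ F χ _ (cyc_mem F χ.2) b).2 h⟩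

open Classical in
/-- the normalised values -/
noncomputable def BB (θ : (F : Fld W p) → MonoidAlgebra (Zp p hp) (Du F.X)) (c : Fam) : ℂ :=
  if h : ∃ F : Fld W p, c ∈ F.X then
    chi (⟨c, h.choose_spec⟩ : h.choose.X) (ww hp θ h.choose) else 0

lemma BB_eq {Ω : ℂ} (hΩ : Ω ≠ 0) {θ : (F : Fld W p) → MonoidAlgebra (Zp p hp) (Du F.X)}
    (hθ : ∀ F, IsTheta F Ω (θ F)) (F : Fld W p) (χ : F.X) :
    chi χ (ww hp θ F) = BB hp θ χ := by
  have h : ∃ F : Fld W p, (χ : Fam) ∈ F.X := ⟨F, χ.2⟩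
  unfold BB
  rw [dif_pos h]
  have h1 := (norm_iff hp hΩ hθ h.choose ⟨χ, h.choose_spec⟩
    (chi (⟨χ, h.choose_spec⟩ : h.choose.X) (ww hp θ h.choose))).2 rfl
  exact ((norm_iff hp hΩ hθ F χ _).1 h1).symm

/-- the field of rational numbers -/
noncomputable def rat (W : WeierstrassCurve ℤ) (p : ℕ) : Fld W p where
  X := ⊥
  T := ∅
  fin := inferInstance
  ram := fun q => ⟨fun h => absurd h (Finset.notMem_empty q), fun ⟨c, hc, h⟩ => by
    rw [Subgroup.mem_bot.1 hc] at h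
    exact absurd rfl h⟩
  adm := fun q hq => absurd hq (Finset.notMem_empty q)
  pow := fun c hc => ⟨0, by rw [Subgroup.mem_bot.1 hc, one_pow]⟩

lemma rat_exp (e : ℕ) : ∀ c ∈ (rat W p).X, c ^ e = 1 := fun c hc => by
  rw [Subgroup.mem_bot.1 hc, one_pow]

lemma aug_zero {X : Type} [CommGroup X] {k : ℕ} {z : MonoidAlgebra (Zp p hp) (Du X)}
    (hz : z ∈ Aug (Zp p hp) (Du X) ^ (k + 1)) : chi 1 z = 0 := by
  rw [chi_one, eps_mem (Ideal.pow_le_self (Nat.succ_ne_zero k) hz)]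
  rfl

/-- **the order of vanishing for the fields of exponent `p`** -/
theorem order_iff {Ω : ℂ} (hΩ : Ω ≠ 0) {θ : (F : Fld W p) → MonoidAlgebra (Zp p hp) (Du F.X)}
    (hθ : ∀ F, IsTheta F Ω (θ F)) (k : ℕ) :
    (∀ F : Fld W p, (∀ c ∈ F.X, c ^ p = 1) → InPow (k + 1) (θ F)) ↔
      BB hp θ 1 = 0 ∧ ∀ F : Fld W p, (∀ c ∈ F.X, c ^ p = 1) → F.T.card ≤ k → ∀ χ : F.X,
        BB hp θ χ ∈ PP (Oz hp 1) (zeta p 1 - 1) (k + 1) := by
  constructor
  · intro h
    refine ⟨?_, fun F hF _ χ => ?_⟩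
    · have h1 := (mem_ww hp (rat W p) (k + 1)).1 (h _ (rat_exp p))
      have h2 := aug_zero hp h1
      rw [BB_eq hp hΩ hθ] at h2
      exact h2
    · have h1 := (mem_ww hp F (k + 1)).1 (h F hF)
      have h2 := aug_PP hp (n := 1) χ (Subtype.ext (by rw [pow_one]; exact hF χ χ.2)) h1
      rwa [BB_eq hp hΩ hθ] at h2
  · rintro ⟨h0, h⟩
    refine ((reduction hp hΩ hθ).1 (k + 1)).prime fun F _ hF hc => ?_
    have hfin := F.fin
    refine (mem_ww hp F (k + 1)).2 ?_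
    refine detect_val hp (fun x => Subtype.ext (hF x x.2)) _ ?_ fun χ => ?_
    · rw [BB_eq hp hΩ hθ]
      exact h0
    · rw [BB_eq hp hΩ hθ]
      exact h F hF (Nat.lt_succ_iff.1 hc) χ

lemma chi_rdet {X : Type} [CommGroup X] {r : ℕ} (h : Fin r → Fin r → Du X) (χ : X) :
    chi χ (rdet (Zp p hp) h) = Matrix.det (Matrix.of fun i j => (h i j χ : ℂ) - 1) := by
  unfold rdet
  have h1 := AlgHom.map_det (chi (A := Zp p hp) χ)
    (Matrix.of fun i j => MonoidAlgebra.of (Zp p hp) (Du X) (h i j) - 1)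
  rw [h1]
  congr 1
  ext i j
  simp only [AlgHom.mapMatrix_apply, Matrix.map_apply, Matrix.of_apply, map_sub, map_one, chi_of]

lemma det_one {X : Type} [CommGroup X] {r : ℕ} (h : Fin r → Fin r → Du X) :
    Matrix.det (Matrix.of fun i j => (h i j 1 : ℂ) - 1) = if r = 0 then 1 else 0 := by
  by_cases hr : r = 0
  · subst hr
    rw [if_pos rfl, Matrix.det_isEmpty]
  · rw [if_neg hr]
    have h1 : (Matrix.of fun i j => ((h i j 1 : ℂˣ) : ℂ) - 1) = 0 := by
      ext i j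
      rw [Matrix.of_apply, map_one, Units.val_one, sub_self]
      rfl
    rw [h1]
    have : Nonempty (Fin r) := ⟨⟨0, Nat.pos_of_ne_zero hr⟩⟩
    exact Matrix.det_zero

/-- the value of the defect -/
lemma chi_defect {Ω : ℂ} (hΩ : Ω ≠ 0) {θ : (F : Fld W p) → MonoidAlgebra (Zp p hp) (Du F.X)}
    (hθ : ∀ F, IsTheta F Ω (θ F)) (F : Fld W p) {r : ℕ} (h : Fin r → Fin r → Du F.X)
    (c : Zp p hp) (χ : F.X) :
    chi χ (ww hp θ F - algebraMap (Zp p hp) (MonoidAlgebra (Zp p hp) (Du F.X)) c *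
      rdet (Zp p hp) h) =
      BB hp θ χ - c * Matrix.det (Matrix.of fun i j => (h i j χ : ℂ) - 1) := by
  rw [map_sub, map_mul, BB_eq hp hΩ hθ, chi_rdet, AlgHom.commutes]
  rfl

/-- **the leading term formula for the fields of exponent `p`** -/
theorem lead_iff {Ω : ℂ} (hΩ : Ω ≠ 0) {θ : (F : Fld W p) → MonoidAlgebra (Zp p hp) (Du F.X)}
    (hθ : ∀ F, IsTheta F Ω (θ F)) (r : ℕ) (h : (F : Fld W p) → Fin r → Fin r → Du F.X)
    (hh : Compat W p h) (c : Zp p hp) :
    (∀ F : Fld W p, (∀ c ∈ F.X, c ^ p = 1) → LT hp F (h F) c (θ F)) ↔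
      BB hp θ 1 = (if r = 0 then (c : ℂ) else 0) ∧
      ∀ F : Fld W p, (∀ c ∈ F.X, c ^ p = 1) → F.T.card ≤ r → ∀ χ : F.X,
        BB hp θ χ - c * Matrix.det (Matrix.of fun i j => (h F i j χ : ℂ) - 1) ∈
          PP (Oz hp 1) (zeta p 1 - 1) (r + 1) := by
  have hone : ∀ F : Fld W p, BB hp θ ((1 : F.X) : Fam) = BB hp θ 1 := fun F => rfl
  constructor
  · intro h'
    refine ⟨?_, fun F hF _ χ => ?_⟩
    · have h1 := (lt_ww hp (rat W p) (h (rat W p)) c).1 (h' _ (rat_exp p))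
      have h2 := aug_zero hp h1
      rw [chi_defect hp hΩ hθ, det_one, hone, sub_eq_zero] at h2
      rw [h2]
      split_ifs <;> simp
    · have h1 := (lt_ww hp F (h F) c).1 (h' F hF)
      have h2 := aug_PP hp (n := 1) χ (Subtype.ext (by rw [pow_one]; exact hF χ χ.2)) h1
      rwa [chi_defect hp hΩ hθ] at h2
  · rintro ⟨h0, h'⟩
    refine ((reduction hp hΩ hθ).2 r h hh c).prime fun F _ hF hc => ?_
    have hfin := F.fin
    refine (lt_ww hp F (h F) c).2 ?_
    refine detect_val hp (fun x => Subtype.ext (hF x x.2)) _ ?_ fun χ => ?_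
    · rw [chi_defect hp hΩ hθ, det_one, hone, h0]
      split_ifs <;> simp
    · rw [chi_defect hp hΩ hθ]
      exact h' F hF (Nat.lt_succ_iff.1 hc) χ

/-- **the values are determined by those with few ramified primes** -/
theorem few_primes {Ω : ℂ} (hΩ : Ω ≠ 0) {θ : (F : Fld W p) → MonoidAlgebra (Zp p hp) (Du F.X)}
    (hθ : ∀ F, IsTheta F Ω (θ F)) {n k : ℕ} (F : Fld W p) (c : F.X) (hcn : (c : Fam) ^ p ^ n = 1)
    (T : Finset ℕ) (hT : ∀ q, q ∈ T ↔ (c : Fam) q ≠ 1) (hk : k < T.card) :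
    BB hp θ c - low (fun s => BB hp θ (cut s c)) T k ∈ PP (Oz hp n) (zeta p n - 1) (k + 1) := by
  have h1 : cut T (c : Fam) = c := by
    refine fam_ext fun q => ?_
    by_cases hq : q ∈ T
    · exact cut_of hq _
    · rw [cut_not hq]
      by_contra h2
      exact hq ((hT q).2 fun h3 => h2 h3.symm)
  have h2 := low_PP hp hΩ hθ F c.2 hcn hT (b := fun s => BB hp θ (cut s c)) (fun s hs => ?_) hk
  · simp only [h1] at h2
    exact h2
  · set G := box F F.T (Finset.Subset.refl _) with hG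
    let χ : G.X := ⟨c, le_box F c.2⟩
    have h3 : ((∏ q ∈ s, cq F q χ : G.X) : Fam) = cut s (c : Fam) := prod_cq F s χ
    have h4 : ∀ q, q ∈ s ↔ ((∏ q ∈ s, cq F q χ : G.X) : Fam) q ≠ 1 := by
      intro q
      rw [h3]
      by_cases hq : q ∈ s
      · rw [cut_of hq]
        exact ⟨fun _ => (hT q).1 (hs hq), fun _ => hq⟩
      · rw [cut_not hq]
        exact ⟨fun h => absurd h hq, fun h => absurd rfl h⟩
    have h5 := (norm_val hp hΩ hθ G (∏ q ∈ s, cq F q χ) s h4 _).2 rfl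
    rw [BB_eq hp hΩ hθ] at h5
    rw [← h3]
    exact h5

end norm

end Pool.Agent.K9h35.MZ
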