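import Pool.Agent.K9h35.MZ.Zeta

/-!
A nonzero element of `Z_(p)[ζ]` is not divisible by all powers of `ζ - 1`.
-/

set_option autoImplicit false

namespace Pool.Agent.K9h35.MZ

open Finset Pool.Agent.X252.MT Polynomial

variable {p : ℕ} (hp : p.Prime) {n : ℕ}

lemma rep {y : ℂ} (hy : y ∈ Oz hp n) :
    ∃ (m : ℤ) (V : ℤ[X]), ¬ (p : ℤ) ∣ m ∧ (m : ℂ) * y = aeval (zeta p n) V := by
  have hpi : Prime (p : ℤ) := Nat.prime_iff_prime_int.1 hp
  have h1 : ¬ (p : ℤ) ∣ 1 := fun h => hpi.not_isUnit (isUnit_of_dvd_one h)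
  unfold Oz at hy
  induction hy using Subring.closure_induction with
  | mem x hx =>
    rcases hx with ⟨a, b, hb, h⟩ | hx
    · exact ⟨b, C a, hb, by rw [h, aeval_C]; simp⟩
    · rw [Set.mem_singleton_iff] at hx
      exact ⟨1, X, h1, by rw [aeval_X, hx]; simp⟩
  | zero => exact ⟨1, 0, h1, by simp⟩
  | one => exact ⟨1, 1, h1, by simp⟩
  | add x y _ _ hx hy =>
    obtain ⟨m, V, hm, h⟩ := hx
    obtain ⟨m', V', hm', h'⟩ := hy
    refine ⟨m * m', C m' * V + C m * V', fun h2 => (hpi.dvd_or_dvd h2).elim hm hm', ?_⟩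
    rw [map_add, map_mul, map_mul, ← h, ← h', aeval_C, aeval_C]
    push_cast
    simp only [algebraMap_int_eq, eq_intCast]
    ring
  | neg x _ hx =>
    obtain ⟨m, V, hm, h⟩ := hx
    exact ⟨m, -V, hm, by rw [map_neg, ← h]; ring⟩
  | mul x y _ _ hx hy =>
    obtain ⟨m, V, hm, h⟩ := hx
    obtain ⟨m', V', hm', h'⟩ := hy
    refine ⟨m * m', V * V', fun h2 => (hpi.dvd_or_dvd h2).elim hm hm', ?_⟩
    rw [map_mul, ← h, ← h']
    push_cast
    ring

lemma rep' {y : ℂ} (hy : y ∈ Oz hp n) :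
    ∃ (m : ℤ) (V : ℤ[X]), ¬ (p : ℤ) ∣ m ∧ (m : ℂ) * y = aeval (zeta p n) V ∧
      V.degree < (cyclotomic (p ^ n) ℤ).degree := by
  obtain ⟨m, V, hm, h⟩ := rep hp hy
  have hroot : aeval (zeta p n) (cyclotomic (p ^ n) ℤ) = 0 := by
    have h1 := cyclotomic_eq_minpoly (zeta_prim hp n) (pow_pos hp.pos n)
    rw [h1, minpoly.aeval]
  refine ⟨m, V %ₘ cyclotomic (p ^ n) ℤ, hm, ?_,
    degree_modByMonic_lt _ (cyclotomic.monic _ _)⟩
  rw [aeval_modByMonic_eq_self_of_root hroot, h]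

include hp in
lemma eq_zero_of_aeval {P : ℤ[X]} (h : aeval (zeta p n) P = 0)
    (hdeg : P.degree < (cyclotomic (p ^ n) ℤ).degree) : P = 0 := by
  have h1 := cyclotomic_eq_minpoly (zeta_prim hp n) (pow_pos hp.pos n)
  have hint : IsIntegral ℤ (zeta p n) := (zeta_prim hp n).isIntegral (pow_pos hp.pos n)
  have h2 := minpoly.isIntegrallyClosed_dvd hint h
  rw [← h1] at h2
  exact eq_zero_of_dvd_of_degree_lt h2 hdeg

lemma pi_pow_mem : ∃ v ∈ Oz hp n, (zeta p n - 1) ^ p ^ n = p * v := by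
  obtain ⟨r, hr⟩ := exists_add_pow_prime_pow_eq hp
    (⟨zeta p n - 1, pi_mem hp n⟩ : Oz hp n) (1 : Oz hp n) n
  have h1 := congrArg Subtype.val hr
  have h2 : (zeta p n) ^ p ^ n = 1 := (zeta_prim hp n).pow_eq_one
  simp only [one_pow, mul_one] at h1
  push_cast at h1
  rw [sub_add_cancel, h2] at h1
  refine ⟨-((zeta p n - 1) * r), (Oz hp n).neg_mem ((Oz hp n).mul_mem (pi_mem hp n) r.2), ?_⟩
  linear_combination -h1

/-- **nonzero elements have a finite valuation** -/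
theorem exists_val {x : ℂ} (hx : x ∈ Oz hp n) (h0 : x ≠ 0) :
    ∃ k, x ∉ PP (Oz hp n) (zeta p n - 1) (k + 1) := by
  by_contra hcon
  push Not at hcon
  have hpi : Prime (p : ℤ) := Nat.prime_iff_prime_int.1 hp
  obtain ⟨m, V, hm, hV, hVd⟩ := rep' hp hx
  obtain ⟨v, hv, hv'⟩ := pi_pow_mem hp (n := n)
  have hdiv : ∀ j : ℕ, ∀ i : ℕ, (p : ℤ) ^ j ∣ V.coeff i := by
    intro j i
    have h1 : x ∈ PP (Oz hp n) (zeta p n - 1) (p ^ n * j) :=
      PP_anti (pi_mem hp n) (Nat.le_succ _) (hcon (p ^ n * j))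
    obtain ⟨y, hy, h2⟩ := h1
    rw [pow_mul, hv', mul_pow, mul_assoc] at h2
    obtain ⟨m', V', hm', hV', hVd'⟩ := rep' hp ((Oz hp n).mul_mem ((Oz hp n).pow_mem hv j) hy)
    have h3 : C ((p : ℤ) ^ j * m) * V' - C m' * V = 0 := by
      refine eq_zero_of_aeval hp (n := n) ?_ ?_
      · rw [map_sub, map_mul (aeval (zeta p n)) (C _) V', map_mul (aeval (zeta p n)) (C _) V,
          ← hV, ← hV', aeval_C, aeval_C, h2]
        simp only [algebraMap_int_eq, eq_intCast]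
        push_cast
        ring
      · refine (degree_sub_le _ _).trans_lt (max_lt ?_ ?_)
        · rw [← smul_eq_C_mul]
          exact (degree_smul_le _ _).trans_lt hVd'
        · rw [← smul_eq_C_mul]
          exact (degree_smul_le _ _).trans_lt hVd
    have h4 := congrArg (fun P => P.coeff i) h3
    simp only [coeff_sub, coeff_C_mul, coeff_zero] at h4
    have h5 : (p : ℤ) ^ j ∣ m' * V.coeff i := ⟨m * V'.coeff i, by linear_combination -h4⟩
    have h6 : IsCoprime ((p : ℤ) ^ j) m' := ((Prime.coprime_iff_not_dvd hpi).2 hm').pow_left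
    exact h6.dvd_of_dvd_mul_left h5
  have hV0 : V = 0 := by
    ext i
    rw [coeff_zero]
    by_contra h1
    have h2 := Int.le_of_dvd (by positivity) ((dvd_abs _ _).2 (hdiv (V.coeff i).natAbs i))
    have h3 : (V.coeff i).natAbs < 2 ^ (V.coeff i).natAbs := Nat.lt_two_pow_self
    have h4 : 2 ^ (V.coeff i).natAbs ≤ p ^ (V.coeff i).natAbs :=
      Nat.pow_le_pow_left hp.two_le _
    have h5 : |V.coeff i| = ((V.coeff i).natAbs : ℤ) := Int.abs_eq_natAbs _
    rw [h5] at h2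
    have h6 : p ^ (V.coeff i).natAbs ≤ (V.coeff i).natAbs := by exact_mod_cast h2
    omega
  rw [hV0, map_zero, mul_eq_zero] at hV
  rcases hV with hV | hV
  · have : m = 0 := by exact_mod_cast hV
    exact hm (this ▸ dvd_zero _)
  · exact h0 hV

end Pool.Agent.K9h35.MZ
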