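import Pool.Agent.K9h35.MZ.Detect
import Pool.Agent.K9h35.MZ.Exk

/-!
Zeros of the twisted `L`-functions and the order of vanishing of the Mazur-Tate elements.
-/

set_option autoImplicit false

namespace Pool.Agent.K9h35.MZ

open Finset Pool.Agent.X252.MT

section main

variable {W : WeierstrassCurve ℤ} {p : ℕ}

/-- the number of the characters `χ` of `F` such that the `L`-function of the twist by `χ⁻¹` does not
vanish at `1` -/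
noncomputable def nonvanishing (F : Fld W p) : ℕ :=
  Nat.card {χ : F.X // ∃ (T : Finset ℕ) (L : ℂ → ℂ), (∀ q, q ∈ T ↔ (χ : Fam) q ≠ 1) ∧
    IsL W T (χ⁻¹ : F.X) L ∧ L 1 ≠ 0}

variable (hp : p.Prime)

lemma cyc_mem (F : Fld W p) {χ : Fam} (hχ : χ ∈ F.X) (q : ℕ) :
    q ∈ (cyc F χ hχ).T ↔ χ q ≠ 1 := by
  classical
  have h1 : q ∈ (cyc F χ hχ).T ↔ q ∈ F.T ∧ χ q ≠ 1 := Finset.mem_filter
  rw [h1]
  exact ⟨fun h => h.2, fun h => ⟨(F.ram q).2 ⟨_, hχ, h⟩, h⟩⟩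

/-- a nonzero value gives a nonvanishing `L`-function -/
lemma nonvan_of {Ω : ℂ} (hΩ : Ω ≠ 0) {θ : (F : Fld W p) → MonoidAlgebra (Zp p hp) (Du F.X)}
    (hθ : ∀ F, IsTheta F Ω (θ F)) (F : Fld W p) (χ : F.X) (h : chi χ (θ F) ≠ 0) :
    ∃ (T : Finset ℕ) (L : ℂ → ℂ), (∀ q, q ∈ T ↔ (χ : Fam) q ≠ 1) ∧
      IsL W T (χ⁻¹ : F.X) L ∧ L 1 ≠ 0 := by
  obtain ⟨L, hL, h1⟩ := hθ F χ
  rw [← chi_eq] at h1
  have hL0 : L 1 ≠ 0 := by
    intro h2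
    rw [h2, mul_zero] at h1
    exact (mul_ne_zero h hΩ) h1
  obtain ⟨L', hL', -⟩ := hθ (cyc F χ χ.2) ⟨χ, Subgroup.mem_zpowers _⟩
  refine ⟨(cyc F χ χ.2).T, L', fun q => ?_, hL', fun h2 => hL0 ?_⟩
  · exact cyc_mem F χ.2 q
  · obtain ⟨n, hn⟩ := F.pow _ (χ⁻¹).2
    have htriv : ∀ q ∈ F.T, q ∉ (cyc F χ χ.2).T → ((χ⁻¹ : F.X) : Fam) q = 1 := by
      intro q hq hq'
      by_contra h3
      apply hq'
      rw [cyc_mem]
      refine fun h4 => h3 ?_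
      show ((χ : Fam)⁻¹) q = 1
      rw [fam_inv, h4, inv_one]
    have h3 := lval (W := W) (T_sub (cyc_le F χ.2)) htriv (pow_pos hp.pos n).ne' hn
      (fun q hq => ⟨(F.adm q hq).1, (F.adm q hq).2.1⟩) hL hL'
    rw [h3, h2, zero_mul]

lemma card_le {Ω : ℂ} (hΩ : Ω ≠ 0) {θ : (F : Fld W p) → MonoidAlgebra (Zp p hp) (Du F.X)}
    (hθ : ∀ F, IsTheta F Ω (θ F)) (F : Fld W p) :
    Nat.card {χ : F.X // chi χ (θ F) ≠ 0} ≤ nonvanishing F := by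
  have hfin := F.fin
  unfold nonvanishing
  exact Nat.card_le_card_of_injective
    (fun χ => ⟨χ.1, nonvan_of hp hΩ hθ F χ.1 χ.2⟩)
    (fun χ ψ h => Subtype.ext (congrArg (fun x => x.1) h))

/-- the bounds from one value -/
theorem bounds {Ω : ℂ} (hΩ : Ω ≠ 0) {θ : (F : Fld W p) → MonoidAlgebra (Zp p hp) (Du F.X)}
    (hθ : ∀ F, IsTheta F Ω (θ F)) {n k : ℕ} (F : Fld W p) (hF : ∀ c ∈ F.X, c ^ p ^ n = 1) (χ : F.X)
    (h : chi χ (θ F) ∉ PP (Oz hp n) (zeta p n - 1) (k + 1)) :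
    Nat.card F.X ≤ 2 ^ k * nonvanishing F ∧
      (k < p → (p - k) * Nat.card F.X ≤ p * nonvanishing F) := by
  have hfin := F.fin
  have hX : ∀ x : F.X, x ^ p ^ n = 1 := fun x => Subtype.ext (hF x x.2)
  have h1 := count (zp_le hp n) hp (fun m hm => int_inv hp n hm) (du_mem hp hX) (du_pi hp hX) k
    (θ F) χ h
  have h2 := card_le hp hΩ hθ F
  exact ⟨h1.1.trans (Nat.mul_le_mul_left _ h2), fun hk => (h1.2 hk).trans (Nat.mul_le_mul_left _ h2)⟩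

/-- the value at a character -/
lemma chi_value {Ω : ℂ} (hΩ : Ω ≠ 0)
    {θ : (F : Fld W p) → MonoidAlgebra (Zp p hp) (Du F.X)} (hθ : ∀ F, IsTheta F Ω (θ F))
    (F₀ : Fld W p) (χ : F₀.X) (L : ℂ → ℂ) (hL : IsL W F₀.T (χ⁻¹ : F₀.X) L) :
    chi χ (θ F₀) = tau F₀.T χ * L 1 / Ω := by
  obtain ⟨L', hL', h1⟩ := hθ F₀ χ
  rw [← chi_eq] at h1
  obtain ⟨m, hm⟩ := F₀.pow _ (χ⁻¹).2
  have h2 := lval (W := W) (Finset.Subset.refl F₀.T) (fun q hq hq' => absurd hq hq')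
    (pow_pos hp.pos m).ne' hm (fun q hq => ⟨(F₀.adm q hq).1, (F₀.adm q hq).2.1⟩) hL' hL
  rw [sdiff_self, bot_eq_empty, prod_empty, mul_one] at h2
  rw [eq_div_iff hΩ, h1, h2]

/-- **nonzero values have a finite valuation** -/
theorem value_val {Ω : ℂ} (hΩ : Ω ≠ 0)
    {θ : (F : Fld W p) → MonoidAlgebra (Zp p hp) (Du F.X)} (hθ : ∀ F, IsTheta F Ω (θ F))
    {n : ℕ} (F₀ : Fld W p) (hF : ∀ c ∈ F₀.X, c ^ p ^ n = 1) (χ : F₀.X) (L : ℂ → ℂ)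
    (hL : IsL W F₀.T (χ⁻¹ : F₀.X) L) (h : tau F₀.T χ * L 1 ≠ 0) :
    ∃ k, tau F₀.T χ * L 1 / Ω ∉ PP (Oz hp n) (zeta p n - 1) (k + 1) := by
  have h0 := chi_value hp hΩ hθ F₀ χ L hL
  rw [← h0]
  refine exists_val hp (chi_Oz hp (fun x => Subtype.ext (hF x x.2)) _ _) ?_
  rw [h0]
  exact div_ne_zero h hΩ

/-- **one value that is not divisible by `π ^ (k + 1)`** -/
theorem one_value {Ω : ℂ} (hΩ : Ω ≠ 0)
    {θ : (F : Fld W p) → MonoidAlgebra (Zp p hp) (Du F.X)} (hθ : ∀ F, IsTheta F Ω (θ F))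
    {n k : ℕ} (F₀ : Fld W p) (χ : F₀.X) (L : ℂ → ℂ) (hL : IsL W F₀.T (χ⁻¹ : F₀.X) L)
    (h : tau F₀.T χ * L 1 / Ω ∉ PP (Oz hp n) (zeta p n - 1) (k + 1)) (F : Fld W p)
    (hF : ∀ c ∈ F.X, c ^ p ^ n = 1) (hχ : (χ : Fam) ∈ F.X) :
    Nat.card F.X ≤ 2 ^ k * nonvanishing F ∧
      (k < p → (p - k) * Nat.card F.X ≤ p * nonvanishing F) := by
  have h0 := chi_value hp hΩ hθ F₀ χ L hL
  have hC : ∀ c ∈ (cyc F₀ χ χ.2).X, c ^ p ^ n = 1 := by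
    intro c hc
    have h1 : Subgroup.zpowers (χ : Fam) ≤ F.X := by
      rw [Subgroup.zpowers_le]
      exact hχ
    exact hF c (h1 hc)
  have hle : (cyc F₀ χ χ.2).X ≤ F.X := by
    show Subgroup.zpowers (χ : Fam) ≤ F.X
    rw [Subgroup.zpowers_le]
    exact hχ
  have h1 := chi_down hp (cyc_le F₀ χ.2) hΩ (hθ F₀) (hθ (cyc F₀ χ χ.2)) hC
    ⟨χ, Subgroup.mem_zpowers _⟩ (k + 1)
  have h2 := chi_down hp hle hΩ (hθ F) (hθ (cyc F₀ χ χ.2)) hC ⟨χ, Subgroup.mem_zpowers _⟩ (k + 1)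
  refine bounds hp hΩ hθ F hF ⟨χ, hχ⟩ fun h3 => h ?_
  rw [← h0]
  exact h1.2 (h2.1 h3)

/-- **many zeros imply a large order of vanishing** -/
theorem many_zeros {Ω : ℂ} (hΩ : Ω ≠ 0)
    {θ : (F : Fld W p) → MonoidAlgebra (Zp p hp) (Du F.X)} (hθ : ∀ F, IsTheta F Ω (θ F))
    (L : ℂ → ℂ) (hL : IsL W ∅ 1 L) (h1 : L 1 = 0) (k : ℕ) (F : Fld W p)
    (hF : ∀ c ∈ F.X, c ^ p = 1)
    (h : 2 ^ k * nonvanishing F < Nat.card F.X ∨
      (k < p ∧ p * nonvanishing F < (p - k) * Nat.card F.X)) :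
    InPow (k + 1) (θ F) := by
  have hfin := F.fin
  by_contra hcon
  have h0 : chi 1 (θ F) = 0 := by
    obtain ⟨L', hL', h2⟩ := hθ F 1
    rw [← chi_eq] at h2
    have h3 := lval (W := W) (T' := ∅) (Finset.empty_subset F.T)
      (c := ((1 : F.X)⁻¹ : F.X)) (fun q _ _ => by rw [inv_one]; rfl) one_ne_zero
      (by rw [inv_one, pow_one]; rfl) (fun q hq => ⟨(F.adm q hq).1, (F.adm q hq).2.1⟩) hL'
      (by rw [inv_one]; exact hL)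
    rw [h1, zero_mul] at h3
    rw [h3, mul_zero] at h2
    exact (mul_eq_zero.1 h2).resolve_right hΩ
  have h2 : ∃ χ : F.X, chi χ (θ F) ∉ PP (Oz hp 1) (zeta p 1 - 1) (k + 1) := by
    by_contra h3
    push Not at h3
    exact hcon (detect_val hp (fun x => Subtype.ext (hF x x.2)) (θ F) h0 h3)
  obtain ⟨χ, hχ⟩ := h2
  have h3 := bounds hp hΩ hθ F (n := 1) (by rw [pow_one]; exact hF) χ hχ
  rcases h with h | ⟨hk, h⟩
  · exact absurd h3.1 (not_le.2 h)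
  · exact absurd (h3.2 hk) (not_le.2 h)

end main

end Pool.Agent.K9h35.MZ
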