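import Mathlib

/-!
Zeros of polynomial maps between abelian groups (in the sense of iterated differences).
-/

set_option autoImplicit false

namespace Pool.Agent.K9h35.MZ

open Finset fwdDiff

section
variable {X M : Type} [AddCommGroup X] [AddCommGroup M]

/-- the map `f` is polynomial of degree less than `k` -/
def DegLt : ℕ → (X → M) → Prop
  | 0, f => f = 0
  | k + 1, f => ∀ h : X, DegLt k (fwdDiff h f)

lemma degLt_iter (h : X) : ∀ (j k : ℕ) (f : X → M), DegLt k f → j ≤ k →
    DegLt (k - j) ((fwdDiff h)^[j] f)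
  | 0, k, f, hf, _ => hf
  | j + 1, 0, f, _, hj => absurd hj (by omega)
  | j + 1, k + 1, f, hf, hj => by
    rw [Function.iterate_succ_apply, Nat.add_sub_add_right]
    exact degLt_iter h j k _ (hf h) (by omega)

lemma const_of (f : X → M) (hf : ∀ h : X, fwdDiff h f = 0) (x y : X) : f x = f y := by
  have h1 := congrFun (hf (x - y)) y
  rw [fwdDiff, add_sub_cancel, Pi.zero_apply, sub_eq_zero] at h1
  exact h1

open Classical in
/-- the number of the points with nonzero value -/
noncomputable def nz [Fintype X] (f : X → M) : ℕ := (univ.filter fun x => f x ≠ 0).card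

omit [AddCommGroup X] in
lemma nz_eq [Fintype X] (f : X → M) : nz f = Nat.card {x : X // f x ≠ 0} := by
  classical
  unfold nz
  rw [Nat.card_eq_fintype_card, Fintype.card_subtype]

lemma nz_const [Fintype X] (f : X → M) (hf : ∀ h : X, fwdDiff h f = 0) (hne : f ≠ 0) :
    nz f = Fintype.card X := by
  classical
  obtain ⟨y, hy⟩ := Function.ne_iff.1 hne
  unfold nz
  rw [filter_true_of_mem (fun x _ => by rw [const_of f hf x y]; exact hy), card_univ]

lemma nz_diff [Fintype X] (f : X → M) (h : X) : nz (fwdDiff h f) ≤ 2 * nz f := by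
  classical
  unfold nz
  have h1 : (univ.filter fun x => fwdDiff h f x ≠ 0) ⊆
      (univ.filter fun x => f x ≠ 0) ∪ (univ.filter fun x => f x ≠ 0).image (fun x => x - h) := by
    intro x hx
    rw [mem_filter] at hx
    rw [mem_union, mem_filter, mem_image]
    by_cases h2 : f x = 0
    · right
      refine ⟨x + h, ?_, by rw [add_sub_cancel_right]⟩
      rw [mem_filter]
      refine ⟨mem_univ _, fun h3 => hx.2 ?_⟩
      rw [fwdDiff, h2, h3, sub_zero]
    · exact Or.inl ⟨mem_univ _, h2⟩
  have h2 := (card_le_card h1).trans (card_union_le _ _)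
  have h3 := card_image_le (s := univ.filter fun x => f x ≠ 0) (f := fun x => x - h)
  omega

/-- **a nonzero polynomial map of degree at most `k` is nonzero on a proportion `2 ^ (-k)`** -/
theorem half [Fintype X] : ∀ (k : ℕ) (f : X → M), DegLt (k + 1) f → f ≠ 0 →
    Fintype.card X ≤ 2 ^ k * nz f
  | 0, f, hf, hne => by rw [nz_const f hf hne, pow_zero, one_mul]
  | k + 1, f, hf, hne => by
    by_cases hc : ∀ h : X, fwdDiff h f = 0
    · rw [nz_const f hc hne]
      exact Nat.le_mul_of_pos_left _ (by positivity)
    · push Not at hc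
      obtain ⟨h, hh⟩ := hc
      have h1 := half k _ (hf h) hh
      have h2 := nz_diff f h
      calc Fintype.card X ≤ 2 ^ k * nz (fwdDiff h f) := h1
        _ ≤ 2 ^ k * (2 * nz f) := Nat.mul_le_mul_left _ h2
        _ = 2 ^ (k + 1) * nz f := by ring

end

section zeros

variable {M : Type} [AddCommGroup M]

lemma adj_kill {n : ℕ} (B : Matrix (Fin n) (Fin n) ℤ) (c : Fin n → M)
    (h : ∀ i, ∑ j, B i j • c j = 0) (k : Fin n) : B.det • c k = 0 := by
  have h1 : ∑ i, B.adjugate k i • ∑ j, B i j • c j = 0 :=
    sum_eq_zero fun i _ => by rw [h i, smul_zero]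
  have h2 : ∑ i, B.adjugate k i • ∑ j, B i j • c j = ∑ j, (B.adjugate * B) k j • c j := by
    simp only [smul_sum, Matrix.mul_apply, sum_smul, smul_smul]
    rw [sum_comm]
  rw [h2, Matrix.adjugate_mul] at h1
  simp only [Matrix.smul_apply, smul_eq_mul] at h1
  rw [sum_eq_single k] at h1
  · rwa [Matrix.one_apply_eq, mul_one] at h1
  · intro j _ hj
    rw [Matrix.one_apply_ne' hj, mul_zero, zero_smul]
  · intro h3
    exact absurd (mem_univ _) h3

/-- **polynomial functions of degree at most `d < p` have at most `d` zeros in `[0, p)`** -/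
theorem zeros {p d : ℕ} (hp : p.Prime)
    (hM : ∀ (n : ℤ) (x : M), ¬ (p : ℤ) ∣ n → n • x = 0 → x = 0) (c g : ℕ → M)
    (hg : ∀ a, g a = ∑ j ∈ range (d + 1), a.choose j • c j) (Z : Finset ℕ) (hZ : Z ⊆ range p)
    (hz : ∀ a ∈ Z, g a = 0) (hcard : d < Z.card) : c d = 0 := by
  obtain ⟨Y, hY, hYc⟩ := exists_subset_card_eq (s := Z) (n := d + 1) hcard
  let e := Y.orderEmbOfFin hYc
  let v : Fin (d + 1) → ℤ := fun i => (e i : ℤ)
  let B : Matrix (Fin (d + 1)) (Fin (d + 1)) ℤ :=
    Matrix.of fun i j => ((descPochhammer ℤ j).eval (v i))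
  have hB : (Matrix.vandermonde v).det = B.det :=
    Matrix.det_eval_matrixOfPolynomials_eq_det_vandermonde v (fun j => descPochhammer ℤ j)
      (fun i => descPochhammer_natDegree ℤ i) (fun i => monic_descPochhammer ℤ i)
  let c' : Fin (d + 1) → M := fun j => (d.factorial / (j : ℕ).factorial : ℕ) • c j
  have h1 : ∀ i, ∑ j, B i j • c' j = 0 := by
    intro i
    have h2 : ∀ j : Fin (d + 1), B i j • c' j = d.factorial • ((e i).choose j • c j) := by
      intro j
      have h3 : B i j = ((e i).descFactorial j : ℕ) := by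
        show (descPochhammer ℤ j).eval ((e i : ℕ) : ℤ) = _
        rw [descPochhammer_eval_eq_descFactorial]
      rw [h3, Nat.descFactorial_eq_factorial_mul_choose, natCast_zsmul, smul_smul, smul_smul]
      congr 1
      have h4 : (j : ℕ).factorial ∣ d.factorial := Nat.factorial_dvd_factorial (by omega)
      rw [mul_assoc, mul_comm ((e i).choose j), ← mul_assoc, Nat.mul_div_cancel' h4]
    rw [sum_congr rfl fun j _ => h2 j, ← smul_sum,
      Fin.sum_univ_eq_sum_range (fun j => (e i).choose j • c j) (d + 1), ← hg,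
      hz _ (hY (orderEmbOfFin_mem _ hYc i)), smul_zero]
  have h2 := adj_kill B c' h1 (Fin.last d)
  have h3 : c' (Fin.last d) = c d := by
    show (d.factorial / d.factorial : ℕ) • c d = c d
    rw [Nat.div_self (Nat.factorial_pos d), one_smul]
  rw [h3] at h2
  refine hM _ _ ?_ h2
  rw [← hB, Matrix.det_vandermonde]
  have hpi : Prime (p : ℤ) := Nat.prime_iff_prime_int.1 hp
  intro h4
  obtain ⟨i, _, h5⟩ := (Prime.dvd_finsetProd_iff hpi _).1 h4
  obtain ⟨j, hj, h6⟩ := (Prime.dvd_finsetProd_iff hpi _).1 h5
  rw [mem_Ioi] at hj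
  have h7 : e i < e j := e.lt_iff_lt.2 hj
  have h8 : e j < p := mem_range.1 (hZ (hY (orderEmbOfFin_mem _ hYc j)))
  have h9 : v j - v i = ((e j - e i : ℕ) : ℤ) := by
    show ((e j : ℕ) : ℤ) - ((e i : ℕ) : ℤ) = _
    omega
  rw [h9] at h6
  have h10 : p ∣ e j - e i := by exact_mod_cast h6
  have h11 := Nat.le_of_dvd (by omega) h10
  omega

end zeros

section sz

variable {X M : Type} [AddCommGroup X] [AddCommGroup M]

lemma line {f : X → M} {h : X} {d : ℕ} (hd : (fwdDiff h)^[d + 1] f = 0) (x : X) (a : ℕ) :
    f (x + a • h) = ∑ j ∈ range (d + 1), a.choose j • ((fwdDiff h)^[j] f) x := by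
  rw [shift_eq_sum_fwdDiff_iter h f a x]
  have h0 : ∀ j, d < j → (fwdDiff h)^[j] f = 0 := by
    intro j hj
    obtain ⟨i, rfl⟩ : ∃ i, j = i + (d + 1) := ⟨j - (d + 1), by omega⟩
    rw [Function.iterate_add_apply, hd]
    induction i with
    | zero => rfl
    | succ i ih =>
      rw [Function.iterate_succ_apply', ih (by omega)]
      funext y
      simp [fwdDiff]
  rcases le_total a d with h1 | h1
  · refine sum_subset (range_subset_range.2 (by omega)) fun j _ hj => ?_
    rw [mem_range, not_lt] at hj
    rw [Nat.choose_eq_zero_of_lt (by omega), zero_smul]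
  · symm
    refine sum_subset (range_subset_range.2 (by omega)) fun j _ hj => ?_
    rw [mem_range, not_lt] at hj
    rw [h0 j (by omega), Pi.zero_apply, smul_zero]

lemma arith {p k d : ℕ} (hdk : d ≤ k) (hk : k < p) :
    p * (p - k) ≤ (p - d) * (p - (k - d)) := by
  obtain ⟨w, rfl⟩ : ∃ w, k = d + w := ⟨k - d, by omega⟩
  obtain ⟨u, rfl⟩ : ∃ u, p = d + w + u := ⟨p - (d + w), by omega⟩
  rw [show d + w + u - (d + w) = u by omega, show d + w + u - d = w + u by omega,
    show d + w + u - (d + w - d) = d + u by omega]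
  nlinarith [Nat.zero_le (d * w)]

/-- **a nonzero polynomial map of degree at most `k < p` vanishes on a proportion at most `k / p`** -/
theorem sz [Fintype X] {p : ℕ} (hp : p.Prime)
    (hM : ∀ (n : ℤ) (x : M), ¬ (p : ℤ) ∣ n → n • x = 0 → x = 0) (k : ℕ) :
    ∀ f : X → M, DegLt (k + 1) f → f ≠ 0 → k < p → (p - k) * Fintype.card X ≤ p * nz f := by
  classical
  induction k using Nat.strong_induction_on with
  | _ k ih =>
  intro f hf hne hk
  by_cases hc : ∀ h : X, fwdDiff h f = 0
  · rw [nz_const f hc hne]
    exact Nat.mul_le_mul_right _ (by omega)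
  · push Not at hc
    obtain ⟨h, hh⟩ := hc
    have hk0 : k ≠ 0 := by
      rintro rfl
      exact hh (hf h)
    have htop : (fwdDiff h)^[k + 1] f = 0 := by
      have := degLt_iter h (k + 1) (k + 1) f hf le_rfl
      rwa [Nat.sub_self] at this
    let P : ℕ → Prop := fun j => (fwdDiff h)^[j] f ≠ 0
    have hP1 : P 1 := hh
    set d := Nat.findGreatest P k with hd
    have hdk : d ≤ k := Nat.findGreatest_le k
    have hd1 : 1 ≤ d := Nat.le_findGreatest (by omega) hP1
    have hPd : P d := Nat.findGreatest_spec (P := P) (m := 1) (by omega) hP1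
    have hPd' : (fwdDiff h)^[d + 1] f = 0 := by
      rcases Nat.lt_or_ge d k with h1 | h1
      · have := Nat.findGreatest_is_greatest (P := P) (n := k) (k := d + 1) (by omega) (by omega)
        exact not_not.1 this
      · rw [show d = k by omega]
        exact htop
    set g := (fwdDiff h)^[d] f with hg
    have hgdeg : DegLt (k - d + 1) g := by
      have := degLt_iter h d (k + 1) f hf (by omega)
      rwa [show k + 1 - d = k - d + 1 by omega] at this
    have h1 := ih (k - d) (by omega) g hgdeg hPd (by omega)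
    have hper : ∀ (a : ℕ) (x : X), g (x + a • h) = g x := by
      have h2 : ∀ x, g (x + h) = g x := by
        intro x
        have h3 : fwdDiff h g = 0 := by
          rw [hg, ← Function.iterate_succ_apply' (fwdDiff h) d f]
          exact hPd'
        have h4 := congrFun h3 x
        rw [fwdDiff, Pi.zero_apply, sub_eq_zero] at h4
        exact h4
      intro a
      induction a with
      | zero => intro x; rw [zero_smul, add_zero]
      | succ a iha =>
        intro x
        rw [succ_nsmul, ← add_assoc, h2, iha]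
    let S := univ.filter fun x => g x ≠ 0
    have h2 : ∀ x ∈ S, p - d ≤ ((range p).filter fun a => f (x + a • h) ≠ 0).card := by
      intro x hx
      have hx' : g x ≠ 0 := (mem_filter.1 hx).2
      by_contra hlt
      rw [not_le] at hlt
      have h3 := card_filter_add_card_filter_not (s := range p) (fun a => f (x + a • h) ≠ 0)
      rw [card_range] at h3
      apply hx'
      refine zeros hp (d := d) hM (fun j => ((fwdDiff h)^[j] f) x)
        (fun a => f (x + a • h)) (fun a => line hPd' x a)
        ((range p).filter fun a => ¬ f (x + a • h) ≠ 0) (filter_subset _ _) ?_ (by omega)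
      intro a ha
      exact not_not.1 (mem_filter.1 ha).2
    have h3 : ∑ x ∈ S, ((range p).filter fun a => f (x + a • h) ≠ 0).card =
        ∑ a ∈ range p, (S.filter fun x => f (x + a • h) ≠ 0).card := by
      simp only [card_filter]
      exact sum_comm
    have h4 : ∀ a ∈ range p, (S.filter fun x => f (x + a • h) ≠ 0).card ≤ nz f := by
      intro a _
      refine card_le_card_of_injOn (fun x => x + a • h) ?_ (fun x _ y _ hxy => by
        simpa using hxy)
      intro x hx
      rw [mem_coe, mem_filter] at hx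
      rw [mem_coe, mem_filter]
      exact ⟨mem_univ _, hx.2⟩
    have h5 : (p - d) * nz g ≤ p * nz f := by
      calc (p - d) * nz g = ∑ _x ∈ S, (p - d) := by
            rw [sum_const, smul_eq_mul, mul_comm]
            rfl
        _ ≤ _ := sum_le_sum h2
        _ = _ := h3
        _ ≤ ∑ _a ∈ range p, nz f := sum_le_sum h4
        _ = p * nz f := by rw [sum_const, card_range, smul_eq_mul]
    have h6 : p * ((p - k) * Fintype.card X) ≤ p * (p * nz f) := by
      have h7 : p * (p - k) ≤ (p - d) * (p - (k - d)) := arith hdk hk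
      calc p * ((p - k) * Fintype.card X) = (p * (p - k)) * Fintype.card X := by ring
        _ ≤ ((p - d) * (p - (k - d))) * Fintype.card X := Nat.mul_le_mul_right _ h7
        _ = (p - d) * ((p - (k - d)) * Fintype.card X) := by ring
        _ ≤ (p - d) * (p * nz g) := Nat.mul_le_mul_left _ h1
        _ = p * ((p - d) * nz g) := by ring
        _ ≤ p * (p * nz f) := Nat.mul_le_mul_left _ h5
    exact Nat.le_of_mul_le_mul_left h6 hp.pos

end sz

end Pool.Agent.K9h35.MZ
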