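import Pool.Agent.K9h35.MZ.Main

/-!
Units of the group rings of finite `p`-groups, and the Euler factors of the Mazur-Tate elements at the
ramified primes.
-/

set_option autoImplicit false

namespace Pool.Agent.K9h35.MZ

open Finset Pool.Agent.X252.MT

section unit

/-- elements whose augmentation is a unit are units -/
theorem unit_of_eps {A : Type} [CommRing A] {G : Type} [CommGroup G] [Finite G] {p : ℕ}
    (hp : p.Prime) (hG : ∀ g : G, ∃ n, g ^ p ^ n = 1)
    (hA : ∀ m : Ideal A, m.IsMaximal → (p : A) ∈ m) {z : MonoidAlgebra A G} {a : A}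
    (ha : IsUnit a) (hz : z - algebraMap A _ a ∈ Aug A G) : IsUnit z := by
  by_contra hcon
  obtain ⟨m, hm, hzm⟩ := exists_max_ideal_of_mem_nonunits hcon
  have hfin : Module.Finite A (MonoidAlgebra A G) := inferInstance
  have hint : Algebra.IsIntegral A (MonoidAlgebra A G) := inferInstance
  have h1 : (Ideal.comap (algebraMap A (MonoidAlgebra A G)) m).IsMaximal :=
    Ideal.isMaximal_comap_of_isIntegral_of_isMaximal m
  have h2 : (p : MonoidAlgebra A G) ∈ m := by
    have h3 := hA _ h1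
    rw [Ideal.mem_comap, map_natCast] at h3
    exact h3
  have h3 : Aug A G ≤ m := by
    unfold Aug
    rw [Ideal.span_le]
    rintro _ ⟨g, rfl⟩
    obtain ⟨n, hn⟩ := hG g
    obtain ⟨r, hr⟩ := exists_add_pow_prime_pow_eq hp (MonoidAlgebra.of A G g - 1)
      (1 : MonoidAlgebra A G) n
    rw [sub_add_cancel, ← map_pow, hn, map_one, one_pow] at hr
    have h4 : (MonoidAlgebra.of A G g - 1) ^ p ^ n ∈ m := by
      have h5 : (MonoidAlgebra.of A G g - 1) ^ p ^ n =
          (p : MonoidAlgebra A G) * -((MonoidAlgebra.of A G g - 1) * 1 * r) := by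
        linear_combination -hr
      rw [h5]
      exact Ideal.mul_mem_right _ _ h2
    exact hm.isPrime.mem_of_pow_mem _ h4
  have h4 : algebraMap A (MonoidAlgebra A G) a ∈ m := by
    have h5 := Ideal.sub_mem _ hzm (h3 hz)
    rwa [sub_sub_cancel] at h5
  exact hm.ne_top (Ideal.eq_top_of_isUnit_mem _ h4 (ha.map _))

lemma zp_max {p : ℕ} (hp : p.Prime) (m : Ideal (Zp p hp)) (hm : m.IsMaximal) :
    (p : Zp p hp) ∈ m := by
  by_contra h
  obtain ⟨⟨z, a, d, hd, hz⟩, i, hi, h1⟩ := hm.exists_inv h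
  refine hm.ne_top (Ideal.eq_top_of_isUnit_mem _ hi ?_)
  have h2 : ¬ (p : ℤ) ∣ d - a * p := by
    intro h3
    exact hd ((dvd_sub_left (Dvd.intro_left a rfl)).1 h3)
  have h3 : ((d : ℤ) : Zp p hp) * i = ((d - a * p : ℤ) : Zp p hp) := by
    have h4 := congrArg Subtype.val h1
    apply Subtype.ext
    simp only [Subring.coe_add, Subring.coe_mul, Subring.coe_one, Subring.coe_natCast,
      Subring.coe_intCast] at h4 ⊢
    push_cast
    linear_combination (d : ℂ) * h4 - (p : ℂ) * hz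
  exact isUnit_of_mul_isUnit_right (h3 ▸ zp_unit hp h2)

end unit

section euler

variable {W : WeierstrassCurve ℤ} {p : ℕ}

/-- the Frobenius of `q` which is trivial on the part ramified at `q` -/
noncomputable def lift (F : Fld W p) (q : ℕ) : Du F.X :=
  ((val (F.T.erase q) q).comp F.X.subtype : F.X →* ℂˣ)

/-- the Euler factor at the prime `q` of `F.T` -/
noncomputable def UU (A : Subring ℂ) (F : Fld W p) (q : ℕ) : MonoidAlgebra A (Du F.X) :=
  (al W q : MonoidAlgebra A (Du F.X)) - (q : MonoidAlgebra A (Du F.X)) *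
    MonoidAlgebra.of A _ (lift F q) - MonoidAlgebra.of A _ (lift F q)⁻¹

/-- the product of the Euler factors -/
noncomputable def NN (A : Subring ℂ) (F : Fld W p) : MonoidAlgebra A (Du F.X) :=
  ∏ q ∈ F.T, UU A F q

lemma rr_lift {F F' : Fld W p} (hle : F'.X ≤ F.X) (q : ℕ) :
    rr hle (lift F q) = lift F' q := by
  ext χ
  show ((val (F.T.erase q) q (χ : Fam) : ℂˣ) : ℂ) = (val (F'.T.erase q) q (χ : Fam) : ℂˣ)
  rw [val_sub (Finset.erase_subset_erase q (T_sub hle)) (fun l hl hl' => triv F' χ.2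
    fun h => hl' (Finset.mem_erase.2 ⟨(Finset.mem_erase.1 hl).1, h⟩)) q]

lemma lift_not {F : Fld W p} {q : ℕ} (hq : q ∉ F.T) : lift F q = frob F q := by
  unfold lift frob
  rw [Finset.erase_eq_of_notMem hq]

lemma mp_UU {A : Subring ℂ} {F F' : Fld W p} (hle : F'.X ≤ F.X) (q : ℕ) :
    mp A (rr hle) (UU A F q) = UU A F' q := by
  unfold UU
  rw [map_sub, map_sub, map_mul, map_intCast, map_natCast, mp_of, mp_of, map_inv, rr_lift]

lemma UU_not {A : Subring ℂ} {F : Fld W p} {q : ℕ} (hq : q ∉ F.T) : UU A F q = VV A F q := by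
  unfold UU VV
  rw [lift_not hq]

lemma mp_NN {A : Subring ℂ} {F F' : Fld W p} (hle : F'.X ≤ F.X) :
    mp A (rr hle) (NN A F) = (∏ l ∈ F.T \ F'.T, VV A F' l) * NN A F' := by
  unfold NN
  rw [map_prod, ← Finset.prod_sdiff (T_sub hle)]
  congr 1
  · refine Finset.prod_congr rfl fun l hl => ?_
    rw [mp_UU, UU_not (Finset.mem_sdiff.1 hl).2]
  · exact Finset.prod_congr rfl fun l _ => mp_UU hle l

variable (hp : p.Prime)

lemma UU_mem (F : Fld W p) (l : ℕ) : UU (Zp p hp) F l -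
    algebraMap (Zp p hp) _ (((-(cnt W l : ℤ) : ℤ)) : Zp p hp) ∈ Aug (Zp p hp) (Du F.X) := by
  rw [mem_aug_iff]
  unfold UU
  rw [map_sub, map_sub, map_sub, map_mul, map_intCast, map_natCast, eps_of, eps_of, AlgHom.commutes]
  have h1 : algebraMap (Zp p hp) (Zp p hp) ((-(cnt W l : ℤ) : ℤ) : Zp p hp) =
    ((-(cnt W l : ℤ) : ℤ) : Zp p hp) := rfl
  rw [h1]
  unfold al
  push_cast
  ring

lemma NN_mem (F : Fld W p) : NN (Zp p hp) F -
    algebraMap (Zp p hp) _ (∏ l ∈ F.T, (((-(cnt W l : ℤ) : ℤ)) : Zp p hp)) ∈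
      Aug (Zp p hp) (Du F.X) :=
  prod_sub_mem _ _ _ fun l _ => UU_mem hp F l

lemma cnt_unit (F : Fld W p) : IsUnit (∏ l ∈ F.T, (((-(cnt W l : ℤ) : ℤ)) : Zp p hp)) := by
  rw [IsUnit.prod_iff]
  intro l hl
  refine zp_unit hp fun h => ?_
  rw [dvd_neg] at h
  exact (F.adm l hl).2.2 (by exact_mod_cast h)

lemma du_pow (F : Fld W p) (σ : Du F.X) : ∃ n, σ ^ p ^ n = 1 := by
  have hfin := F.fin
  have h1 : ∀ x : F.X, ∃ n, x ^ p ^ n = 1 := fun x => by
    obtain ⟨n, hn⟩ := F.pow x x.2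
    exact ⟨n, Subtype.ext hn⟩
  choose f hf using h1
  have hF : Fintype F.X := Fintype.ofFinite _
  refine ⟨∑ x, f x, ?_⟩
  ext x
  obtain ⟨e, he⟩ := pow_dvd_pow p (Finset.single_le_sum (fun i _ => Nat.zero_le (f i))
    (Finset.mem_univ x))
  have h2 : (σ ^ p ^ ∑ x, f x) x = σ (x ^ p ^ ∑ x, f x) := by
    rw [map_pow]
    exact map_pow (dev x) σ _
  rw [h2, he, pow_mul, hf, one_pow, map_one]
  rfl

/-- **the product of the Euler factors is a unit** -/
theorem NN_unit (F : Fld W p) : IsUnit (NN (Zp p hp) F) := by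
  have hfin := F.fin
  have h1 : Finite (Du F.X) := fin_dual F.X
  exact unit_of_eps hp (du_pow F) (zp_max hp) (cnt_unit hp F) (NN_mem hp F)

end euler

end Pool.Agent.K9h35.MZ
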