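import Pool.Agent.K9h35.MZ.Unit

/-!
The universal element.
-/

set_option autoImplicit false

namespace Pool.Agent.K9h35.MZ

open Finset Pool.Agent.X252.MT

section univ

variable {W : WeierstrassCurve ℤ} {p : ℕ} (hp : p.Prime)

/-- the quotient of the Mazur-Tate element by the Euler factors -/
noncomputable def ww (θ : (F : Fld W p) → MonoidAlgebra (Zp p hp) (Du F.X)) (F : Fld W p) :
    MonoidAlgebra (Zp p hp) (Du F.X) := ((NN_unit hp F).unit⁻¹ : (MonoidAlgebra _ _)ˣ) * mt F (θ F)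

variable (θ : (F : Fld W p) → MonoidAlgebra (Zp p hp) (Du F.X))

lemma NN_ww (F : Fld W p) : NN (Zp p hp) F * ww hp θ F = mt F (θ F) := by
  unfold ww
  rw [← mul_assoc, IsUnit.mul_val_inv, one_mul]

variable {θ}

/-- **exact compatibility** -/
theorem res_ww {Ω : ℂ} (hΩ : Ω ≠ 0) (hθ : ∀ F, IsTheta F Ω (θ F)) {F F' : Fld W p}
    (hle : F'.X ≤ F.X) : mp (Zp p hp) (rr hle) (ww hp θ F) = ww hp θ F' := by
  have h1 : IsUnit (mp (Zp p hp) (rr hle) (NN (Zp p hp) F)) := (NN_unit hp F).map _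
  apply h1.mul_left_cancel
  rw [← map_mul, NN_ww, res_mt hp hle hΩ (hθ F) (hθ F'), mp_NN, mul_assoc, NN_ww]

theorem mem_ww (F : Fld W p) (k : ℕ) : InPow k (θ F) ↔ InPow k (ww hp θ F) := by
  unfold InPow
  rw [← mt_mem_iff hp F (θ F) k, ← NN_ww]
  exact Ideal.unit_mul_mem_iff_mem _ (NN_unit hp F)

/-- **the leading term formula** -/
theorem lt_ww (F : Fld W p) {r : ℕ} (h : Fin r → Fin r → Du F.X) (c : Zp p hp) :
    LT hp F h c (θ F) ↔
      InPow (r + 1) (ww hp θ F - algebraMap (Zp p hp) (MonoidAlgebra (Zp p hp) (Du F.X)) c *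
        rdet (Zp p hp) h) := by
  set R := rdet (Zp p hp) h with hR
  have hRm : R ∈ Aug (Zp p hp) (Du F.X) ^ r := det_mem h
  have h1 : frm (∏ q ∈ F.T, q) (lc hp F c) h (θ F) =
      NN (Zp p hp) F * ww hp θ F - algebraMap _ _ (lc hp F c) * R := by
    rw [NN_ww]
    rfl
  have h2 : lc hp F c = c * ∏ l ∈ F.T, (((-(cnt W l : ℤ) : ℤ)) : Zp p hp) := by
    unfold lc
    have h4 : ∏ l ∈ F.T, (((-(cnt W l : ℤ) : ℤ)) : Zp p hp) =
        (-1) ^ F.T.card * ∏ l ∈ F.T, (cnt W l : Zp p hp) := by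
      rw [← Finset.prod_const, ← Finset.prod_mul_distrib]
      refine Finset.prod_congr rfl fun l _ => ?_
      push_cast
      ring
    rw [h4]
    ring
  have h3 : (NN (Zp p hp) F - algebraMap _ _ (∏ l ∈ F.T, (((-(cnt W l : ℤ) : ℤ)) : Zp p hp))) *
      (algebraMap (Zp p hp) _ c * R) ∈ Aug (Zp p hp) (Du F.X) ^ (r + 1) := by
    rw [pow_succ']
    exact Ideal.mul_mem_mul (NN_mem hp F) (Ideal.mul_mem_left _ _ hRm)
  have h4 : frm (∏ q ∈ F.T, q) (lc hp F c) h (θ F) =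
      NN (Zp p hp) F * (ww hp θ F - algebraMap (Zp p hp) _ c * R) +
      (NN (Zp p hp) F - algebraMap _ _ (∏ l ∈ F.T, (((-(cnt W l : ℤ) : ℤ)) : Zp p hp))) *
      (algebraMap (Zp p hp) _ c * R) := by
    rw [h1, h2, map_mul]
    ring
  unfold Pool.Agent.X252.MT.LT InPow
  rw [h4, Ideal.add_mem_iff_left _ h3]
  exact Ideal.unit_mul_mem_iff_mem _ (NN_unit hp F)

/-! ### the values -/

/-- the value of the Euler factor at a character -/
noncomputable def euler (W : WeierstrassCurve ℤ) (T : Finset ℕ) (c : Fam) (q : ℕ) : ℂ :=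
  (q + 1 - cnt W q : ℂ) - q * (val (T.erase q) q c : ℂ) - (val (T.erase q) q c : ℂ)⁻¹

lemma chi_UU (F : Fld W p) (χ : F.X) (q : ℕ) :
    chi χ (UU (Zp p hp) F q) = euler W F.T χ q := by
  unfold UU euler
  rw [map_sub, map_sub, map_mul, map_intCast, map_natCast, chi_of, chi_of, al_cast, du_inv,
    Units.val_inv_eq_inv_val]
  rfl

/-- `b Ω ∏ (a_q - q φ_q(c) - φ_q(c)⁻¹) = m τ_m(c) L(E, c⁻¹, 1)`, the product over the primes `q`
dividing the conductor `m` of `c` -/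
def IsNorm (W : WeierstrassCurve ℤ) (Ω : ℂ) (T : Finset ℕ) (c : Fam) (b : ℂ) : Prop :=
  ∃ L : ℂ → ℂ, IsL W T c⁻¹ L ∧
    b * Ω * ∏ q ∈ T, euler W T c q = (∏ q ∈ T, (q : ℂ)) * (tau T c * L 1)

/-- **the normalised value is the value of the universal element** -/
theorem norm_val {Ω : ℂ} (hΩ : Ω ≠ 0) (hθ : ∀ F, IsTheta F Ω (θ F)) (F : Fld W p) (χ : F.X)
    (T : Finset ℕ) (hT : ∀ q, q ∈ T ↔ (χ : Fam) q ≠ 1) (b : ℂ) :
    IsNorm W Ω T χ b ↔ b = chi χ (ww hp θ F) := by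
  set F' := cyc F χ χ.2 with hF'
  have hTF : T = F'.T := by
    ext q
    rw [hT, hF', cyc_mem]
  subst hTF
  let χ' : F'.X := ⟨χ, Subgroup.mem_zpowers _⟩
  have h1 : chi χ (ww hp θ F) = chi χ' (ww hp θ F') := by
    have h2 : mp (Zp p hp) (rr (show F'.X ≤ F.X from cyc_le F χ.2)) (ww hp θ F) = ww hp θ F' :=
      res_ww hp hΩ hθ (cyc_le F χ.2)
    rw [← h2]
    exact (chi_mp (Subgroup.inclusion (show F'.X ≤ F.X from cyc_le F χ.2)) χ' (ww hp θ F)).symm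
  have h3 : (∏ q ∈ F'.T, euler W F'.T χ q) * chi χ' (ww hp θ F') =
      (∏ q ∈ F'.T, (q : ℂ)) * chi χ' (θ F') := by
    have h4 := congrArg (chi χ') (NN_ww hp θ F')
    unfold NN Pool.Agent.X252.MT.mt at h4
    rw [map_mul, map_prod, map_mul, map_natCast] at h4
    rw [Finset.prod_congr rfl fun q _ => (chi_UU hp F' χ' q).symm, h4]
    push_cast
    rfl
  have h5 : ∏ q ∈ F'.T, euler W F'.T χ q ≠ 0 := by
    have h6 : IsUnit (chi χ' (NN (Zp p hp) F')) := (NN_unit hp F').map (chi χ')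
    have h7 : chi χ' (NN (Zp p hp) F') = ∏ q ∈ F'.T, euler W F'.T χ q := by
      unfold NN
      rw [map_prod]
      exact Finset.prod_congr rfl fun q _ => chi_UU hp F' χ' q
    rw [← h7]
    exact h6.ne_zero
  rw [h1]
  constructor
  · rintro ⟨L, hL, h6⟩
    have h7 := chi_value hp hΩ hθ F' χ' L hL
    apply mul_left_cancel₀ h5
    apply mul_right_cancel₀ hΩ
    rw [h3, h7]
    have h8 : (tau F'.T (χ' : Fam) * L 1 / Ω) * Ω = tau F'.T (χ : Fam) * L 1 :=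
      div_mul_cancel₀ _ hΩ
    linear_combination h6 - (∏ q ∈ F'.T, (q : ℂ)) * h8
  · intro hb
    obtain ⟨L, hL, h6⟩ := hθ F' χ'
    refine ⟨L, hL, ?_⟩
    rw [← chi_eq] at h6
    have h7 : tau F'.T (χ' : Fam) = tau F'.T (χ : Fam) := rfl
    rw [h7] at h6
    rw [hb, ← h6]
    linear_combination Ω * h3

end univ

end Pool.Agent.K9h35.MZ
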