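import Pool.Agent.X252.MTK
import Pool.Agent.K9h35.MZ.Poly

/-!
The values of a group ring element at the characters, modulo powers of the uniformiser, form a
polynomial map.
-/

set_option autoImplicit false

namespace Pool.Agent.K9h35.MZ

open Finset Pool.Agent.X252.MT

section vals

variable {X : Type} [CommGroup X] (O : Subring ℂ) (π : ℂ)

/-- the multiples of `π ^ k` by elements of `O` -/
def PP (k : ℕ) : AddSubgroup ℂ where
  carrier := {x | ∃ y ∈ O, x = π ^ k * y}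
  zero_mem' := ⟨0, O.zero_mem, by ring⟩
  add_mem' := by
    rintro _ _ ⟨a, ha, rfl⟩ ⟨b, hb, rfl⟩
    exact ⟨a + b, O.add_mem ha hb, by ring⟩
  neg_mem' := by
    rintro _ ⟨a, ha, rfl⟩
    exact ⟨-a, O.neg_mem ha, by ring⟩

lemma mem_PP {k : ℕ} {x : ℂ} : x ∈ PP O π k ↔ ∃ y ∈ O, x = π ^ k * y := Iff.rfl

lemma PP_mul {k : ℕ} {x a : ℂ} (ha : a ∈ O) (hx : x ∈ PP O π k) : a * x ∈ PP O π k := by
  obtain ⟨y, hy, rfl⟩ := hx
  exact ⟨a * y, O.mul_mem ha hy, by ring⟩

variable {O π}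

lemma PP_zero {x : ℂ} (hx : x ∈ O) : x ∈ PP O π 0 := ⟨x, hx, by ring⟩

lemma PP_succ {k : ℕ} {x : ℂ} (hx : x ∈ PP O π k) : π * x ∈ PP O π (k + 1) := by
  obtain ⟨y, hy, rfl⟩ := hx
  exact ⟨y, hy, by ring⟩

lemma PP_anti (hπ : π ∈ O) {k j : ℕ} (h : k ≤ j) {x : ℂ} (hx : x ∈ PP O π j) : x ∈ PP O π k := by
  obtain ⟨y, hy, rfl⟩ := hx
  obtain ⟨i, rfl⟩ := Nat.exists_eq_add_of_le h
  exact ⟨π ^ i * y, O.mul_mem (O.pow_mem hπ i) hy, by ring⟩

/-- the values are in `O` -/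
lemma chi_mem (hO : ∀ (σ : Du X) (χ : X), (σ χ : ℂ) ∈ O) (z : MonoidAlgebra O (Du X)) (χ : X) :
    chi χ z ∈ O := by
  induction z using MonoidAlgebra.induction_on with
  | of σ => rw [chi_of]; exact hO σ χ
  | add x y hx hy => rw [map_add]; exact O.add_mem hx hy
  | smul r x hx =>
    rw [map_smul, Subring.smul_def, smul_eq_mul]
    exact O.mul_mem r.2 hx

/-- the differences of the values are divisible by `π` -/
lemma chi_diff (h : ∀ (σ : Du X) (χ : X), ∃ y ∈ O, (σ χ : ℂ) - 1 = π * y)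
    (z : MonoidAlgebra O (Du X)) (ψ : X) : ∃ z' : MonoidAlgebra O (Du X), ∀ χ : X,
      chi (χ * ψ) z - chi χ z = π * chi χ z' := by
  induction z using MonoidAlgebra.induction_on with
  | of σ =>
    obtain ⟨y, hy, h1⟩ := h σ ψ
    refine ⟨(⟨y, hy⟩ : O) • MonoidAlgebra.of O _ σ, fun χ => ?_⟩
    rw [map_smul, chi_of, chi_of, map_mul, Units.val_mul, Subring.smul_def, smul_eq_mul]
    show _ = π * (y * _)
    linear_combination ((σ χ : ℂ)) * h1
  | add x y hx hy =>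
    obtain ⟨x', hx'⟩ := hx
    obtain ⟨y', hy'⟩ := hy
    refine ⟨x' + y', fun χ => ?_⟩
    rw [map_add, map_add, map_add]
    linear_combination hx' χ + hy' χ
  | smul r x hx =>
    obtain ⟨x', hx'⟩ := hx
    refine ⟨r • x', fun χ => ?_⟩
    rw [map_smul, map_smul, map_smul, Subring.smul_def, Subring.smul_def, Subring.smul_def,
      smul_eq_mul, smul_eq_mul, smul_eq_mul]
    linear_combination (r : ℂ) * hx' χ

lemma degLt_chi (hO : ∀ (σ : Du X) (χ : X), (σ χ : ℂ) ∈ O)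
    (h : ∀ (σ : Du X) (χ : X), ∃ y ∈ O, (σ χ : ℂ) - 1 = π * y) (k : ℕ) :
    ∀ (i j : ℕ) (z : MonoidAlgebra O (Du X)), i + j = k →
      DegLt i (fun χ : Additive X =>
        (QuotientAddGroup.mk (π ^ j * chi (Additive.toMul χ) z) : ℂ ⧸ PP O π k))
  | 0, j, z, hk => by
    obtain rfl : j = k := by omega
    funext χ
    exact (QuotientAddGroup.eq_zero_iff _).2 ⟨_, chi_mem hO z _, rfl⟩
  | i + 1, j, z, hk => by
    intro ψ
    obtain ⟨z', hz'⟩ := chi_diff h z (Additive.toMul ψ)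
    have h1 := degLt_chi hO h k i (j + 1) z' (by omega)
    have h2 : fwdDiff ψ (fun χ : Additive X =>
        (QuotientAddGroup.mk (π ^ j * chi (Additive.toMul χ) z) : ℂ ⧸ PP O π k)) =
        fun χ : Additive X =>
          (QuotientAddGroup.mk (π ^ (j + 1) * chi (Additive.toMul χ) z') : ℂ ⧸ PP O π k) := by
      funext χ
      rw [fwdDiff, ← QuotientAddGroup.mk_sub]
      congr 1
      have h3 := hz' (Additive.toMul χ)
      rw [toMul_add]
      linear_combination π ^ j * h3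
    rw [h2]
    exact h1

/-- change of coefficients -/
lemma chi_map {A : Subring ℂ} (hA : A ≤ O) (z : MonoidAlgebra A (Du X)) :
    ∃ z' : MonoidAlgebra O (Du X), ∀ χ : X, chi χ z = chi χ z' := by
  induction z using MonoidAlgebra.induction_on with
  | of σ => exact ⟨MonoidAlgebra.of O _ σ, fun χ => by rw [chi_of, chi_of]⟩
  | add x y hx hy =>
    obtain ⟨x', hx'⟩ := hx
    obtain ⟨y', hy'⟩ := hy
    exact ⟨x' + y', fun χ => by rw [map_add, map_add, hx', hy']⟩
  | smul r x hx =>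
    obtain ⟨x', hx'⟩ := hx
    refine ⟨(⟨r, hA r.2⟩ : O) • x', fun χ => ?_⟩
    rw [map_smul, map_smul, Subring.smul_def, Subring.smul_def, hx']

/-- **the abstract counting theorem** -/
theorem count [Finite X] {A : Subring ℂ} (hA : A ≤ O) {p : ℕ} (hp : p.Prime)
    (hinv : ∀ n : ℤ, ¬ (p : ℤ) ∣ n → ∃ c ∈ O, c * (n : ℂ) = 1)
    (hO : ∀ (σ : Du X) (χ : X), (σ χ : ℂ) ∈ O)
    (h : ∀ (σ : Du X) (χ : X), ∃ y ∈ O, (σ χ : ℂ) - 1 = π * y) (k : ℕ)
    (z : MonoidAlgebra A (Du X)) (χ₀ : X) (h0 : chi χ₀ z ∉ PP O π (k + 1)) :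
    Nat.card X ≤ 2 ^ k * Nat.card {χ : X // chi χ z ≠ 0} ∧
    (k < p → (p - k) * Nat.card X ≤ p * Nat.card {χ : X // chi χ z ≠ 0}) := by
  classical
  obtain ⟨z', hz'⟩ := chi_map hA z
  have hF : Fintype (Additive X) := Fintype.ofFinite _
  let f : Additive X → ℂ ⧸ PP O π (k + 1) := fun χ =>
    QuotientAddGroup.mk (π ^ 0 * chi (Additive.toMul χ) z')
  have hf : DegLt (k + 1) f := degLt_chi hO h (k + 1) (k + 1) 0 z' rfl
  have hne : f ≠ 0 := by
    intro h1
    have h2 := congrFun h1 (Additive.ofMul χ₀)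
    apply h0
    rw [hz']
    have h3 := (QuotientAddGroup.eq_zero_iff _).1 h2
    rwa [pow_zero, one_mul, toMul_ofMul] at h3
  have hM : ∀ (n : ℤ) (x : ℂ ⧸ PP O π (k + 1)), ¬ (p : ℤ) ∣ n → n • x = 0 → x = 0 := by
    intro n x hn
    induction x using QuotientAddGroup.induction_on with
    | H a =>
    intro h1
    rw [← QuotientAddGroup.mk_zsmul, QuotientAddGroup.eq_zero_iff] at h1
    rw [QuotientAddGroup.eq_zero_iff]
    obtain ⟨c, hc, h2⟩ := hinv n hn
    have h3 := PP_mul O π hc h1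
    rw [zsmul_eq_mul, ← mul_assoc, h2, one_mul] at h3
    exact h3
  have hcard : Fintype.card (Additive X) = Nat.card X := by
    rw [← Nat.card_eq_fintype_card]
    exact Nat.card_congr Additive.toMul
  have hnz : nz f ≤ Nat.card {χ : X // chi χ z ≠ 0} := by
    rw [nz_eq]
    refine Nat.card_le_card_of_injective
      (fun χ : {x : Additive X // f x ≠ 0} => (⟨Additive.toMul χ.1, fun h1 => ?_⟩ :
        {χ : X // chi χ z ≠ 0})) ?_
    · apply χ.2
      show (QuotientAddGroup.mk _ : ℂ ⧸ PP O π (k + 1)) = 0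
      rw [← hz', h1, mul_zero]
      rfl
    · intro χ ψ hχ
      have h1 := congrArg Subtype.val hχ
      exact Subtype.ext (Additive.toMul.injective h1)
  have h1 := half k f hf hne
  have h2 := sz hp hM k f hf hne
  rw [hcard] at h1 h2
  exact ⟨h1.trans (Nat.mul_le_mul_left _ hnz), fun hk => (h2 hk).trans (Nat.mul_le_mul_left _ hnz)⟩

end vals

end Pool.Agent.K9h35.MZ
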