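import Pool.Agent.K9h35.MZ.Val

/-!
Roots of unity of `p`-power order, the ring `Z_(p)[ζ]`, and the comparison of the values of the
Mazur-Tate elements of different fields at a character.
-/

set_option autoImplicit false

namespace Pool.Agent.K9h35.MZ

open Finset Pool.Agent.X252.MT

section zeta

variable {p : ℕ} (hp : p.Prime) (n : ℕ)

/-- `exp (2 π i / p ^ n)` -/
noncomputable def zeta (p n : ℕ) : ℂ := Complex.exp (2 * Real.pi * Complex.I / (p ^ n : ℕ))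

/-- the ring generated by `zeta p n` over the rational numbers with denominators prime to `p` -/
noncomputable def Oz : Subring ℂ := Subring.closure ((Zp p hp : Set ℂ) ∪ {zeta p n})

lemma zp_le : Zp p hp ≤ Oz hp n := fun _ h => Subring.subset_closure (Or.inl h)

lemma zeta_mem : zeta p n ∈ Oz hp n := Subring.subset_closure (Or.inr rfl)

lemma pi_mem : zeta p n - 1 ∈ Oz hp n := (Oz hp n).sub_mem (zeta_mem hp n) (Oz hp n).one_mem

lemma int_inv {m : ℤ} (hm : ¬ (p : ℤ) ∣ m) : ∃ c ∈ Oz hp n, c * (m : ℂ) = 1 := by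
  obtain ⟨c, hc⟩ := (zp_unit hp hm).exists_left_inv
  refine ⟨c, zp_le hp n c.2, ?_⟩
  have := congrArg Subtype.val hc
  simpa using this

include hp in
lemma zeta_prim : IsPrimitiveRoot (zeta p n) (p ^ n) :=
  Complex.isPrimitiveRoot_exp _ (pow_pos hp.pos n).ne'

lemma root_mem {x : ℂ} (hx : x ^ p ^ n = 1) :
    x ∈ Oz hp n ∧ ∃ y ∈ Oz hp n, x - 1 = (zeta p n - 1) * y := by
  have hne : NeZero (p ^ n) := ⟨(pow_pos hp.pos n).ne'⟩
  obtain ⟨a, -, rfl⟩ := (zeta_prim hp n).eq_pow_of_pow_eq_one hx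
  refine ⟨(Oz hp n).pow_mem (zeta_mem hp n) a, ∑ i ∈ range a, zeta p n ^ i,
    (Oz hp n).sum_mem fun i _ => (Oz hp n).pow_mem (zeta_mem hp n) i, ?_⟩
  rw [mul_comm, geom_sum_mul]

variable {X : Type} [CommGroup X] {n}

lemma du_root (hX : ∀ x : X, x ^ p ^ n = 1) (σ : Du X) (χ : X) : (σ χ : ℂ) ^ p ^ n = 1 := by
  rw [← Units.val_pow_eq_pow_val, ← map_pow, hX, map_one, Units.val_one]

lemma du_mem (hX : ∀ x : X, x ^ p ^ n = 1) (σ : Du X) (χ : X) : (σ χ : ℂ) ∈ Oz hp n :=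
  (root_mem hp n (du_root hX σ χ)).1

lemma du_pi (hX : ∀ x : X, x ^ p ^ n = 1) (σ : Du X) (χ : X) :
    ∃ y ∈ Oz hp n, (σ χ : ℂ) - 1 = (zeta p n - 1) * y :=
  (root_mem hp n (du_root hX σ χ)).2

/-- the value is in `Z_(p)[ζ]` -/
lemma chi_Oz (hX : ∀ x : X, x ^ p ^ n = 1) (z : MonoidAlgebra (Zp p hp) (Du X)) (χ : X) :
    chi χ z ∈ Oz hp n := by
  obtain ⟨z', hz'⟩ := chi_map (zp_le hp n) z
  rw [hz']
  exact chi_mem (du_mem hp hX) z' χ

/-- cancellation of an integer prime to `p` -/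
lemma cancel_int {m : ℤ} (hm : ¬ (p : ℤ) ∣ m) {k : ℕ} {x : ℂ}
    (h : (m : ℂ) * x ∈ PP (Oz hp n) (zeta p n - 1) k) : x ∈ PP (Oz hp n) (zeta p n - 1) k := by
  obtain ⟨c, hc, h1⟩ := int_inv hp n hm
  have h2 := PP_mul _ _ hc h
  rwa [← mul_assoc, h1, one_mul] at h2

/-- cancellation of a unit -/
lemma cancel_unit {m : ℤ} (hm : ¬ (p : ℤ) ∣ m) {v y x : ℂ} (hy : y ∈ Oz hp n)
    (hv : v = m + (zeta p n - 1) * y) (hx : x ∈ Oz hp n) :
    ∀ {k : ℕ}, v * x ∈ PP (Oz hp n) (zeta p n - 1) k → x ∈ PP (Oz hp n) (zeta p n - 1) k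
  | 0, _ => PP_zero hx
  | k + 1, h => by
    have h1 := cancel_unit hm hy hv hx (PP_anti (pi_mem hp n) (Nat.le_succ k) h)
    apply cancel_int hp hm
    have h2 := PP_succ (PP_mul _ _ hy h1)
    have h3 : (m : ℂ) * x = v * x - (zeta p n - 1) * (y * x) := by rw [hv]; ring
    rw [h3]
    exact AddSubgroup.sub_mem _ h h2

lemma cancel_prod {ι : Type} (T : Finset ι) (v : ι → ℂ)
    (hv : ∀ i ∈ T, ∃ (m : ℤ) (y : ℂ), ¬ (p : ℤ) ∣ m ∧ y ∈ Oz hp n ∧ v i = m + (zeta p n - 1) * y)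
    {x : ℂ} (hx : x ∈ Oz hp n) {k : ℕ} :
    (∏ i ∈ T, v i) * x ∈ PP (Oz hp n) (zeta p n - 1) k ↔ x ∈ PP (Oz hp n) (zeta p n - 1) k := by
  classical
  have hvO : ∀ i ∈ T, v i ∈ Oz hp n := by
    intro i hi
    obtain ⟨m, y, _, hy, h1⟩ := hv i hi
    rw [h1]
    exact (Oz hp n).add_mem (intCast_mem _ m) ((Oz hp n).mul_mem (pi_mem hp n) hy)
  refine ⟨fun h => ?_, fun h => PP_mul _ _ ((Oz hp n).prod_mem hvO) h⟩
  induction T using Finset.induction_on with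
  | empty => rwa [prod_empty, one_mul] at h
  | insert i T hi ih =>
    rw [prod_insert hi, mul_assoc] at h
    obtain ⟨m, y, hm, hy, h1⟩ := hv i (mem_insert_self i T)
    exact ih (fun j hj => hv j (mem_insert_of_mem hj)) (fun j hj => hvO j (mem_insert_of_mem hj))
      (cancel_unit hp hm hy h1 ((Oz hp n).mul_mem
        ((Oz hp n).prod_mem fun j hj => hvO j (mem_insert_of_mem hj)) hx) h)

end zeta

section fields

variable {W : WeierstrassCurve ℤ} {p : ℕ} (hp : p.Prime)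

/-- restriction of the values to a subfield -/
lemma chi_down {F F' : Fld W p} (hle : F'.X ≤ F.X) {Ω : ℂ} (hΩ : Ω ≠ 0)
    {θ : MonoidAlgebra (Zp p hp) (Du F.X)} {θ' : MonoidAlgebra (Zp p hp) (Du F'.X)}
    (h : IsTheta F Ω θ) (h' : IsTheta F' Ω θ') {n : ℕ} (hn : ∀ c ∈ F'.X, c ^ p ^ n = 1)
    (χ : F'.X) (k : ℕ) :
    chi (Subgroup.inclusion hle χ) θ ∈ PP (Oz hp n) (zeta p n - 1) k ↔
      chi χ θ' ∈ PP (Oz hp n) (zeta p n - 1) k := by
  have hX' : ∀ x : F'.X, x ^ p ^ n = 1 := fun x => Subtype.ext (hn x x.2)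
  have h1 := congrArg (chi χ) (res_mt hp hle hΩ h h')
  have h2 : chi χ (mp (Zp p hp) (rr hle) (mt F θ)) = chi (Subgroup.inclusion hle χ) (mt F θ) :=
    chi_mp _ _ _
  rw [h2, map_mul, map_prod] at h1
  have hm : ∀ F : Fld W p, ¬ (p : ℤ) ∣ ((∏ q ∈ F.T, q : ℕ) : ℤ) := by
    intro F h2
    have h3 : p ∣ ∏ q ∈ F.T, q := by exact_mod_cast h2
    obtain ⟨q, hq, h4⟩ := (Prime.dvd_finsetProd_iff hp.prime _).1 h3
    have h5 := (Nat.prime_dvd_prime_iff_eq hp (F.adm q hq).1).1 h4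
    exact ne_p hp F hq h5.symm
  have hmt : ∀ (F : Fld W p) (θ : MonoidAlgebra (Zp p hp) (Du F.X)) (χ : F.X),
      chi χ (mt F θ) = (((∏ q ∈ F.T, q : ℕ) : ℤ) : ℂ) * chi χ θ := by
    intro F θ χ
    unfold Pool.Agent.X252.MT.mt
    rw [map_mul, map_natCast, Int.cast_natCast]
  have hiff : ∀ (F : Fld W p) (x : ℂ),
      (((∏ q ∈ F.T, q : ℕ) : ℤ) : ℂ) * x ∈ PP (Oz hp n) (zeta p n - 1) k ↔
        x ∈ PP (Oz hp n) (zeta p n - 1) k := fun F x =>
    ⟨cancel_int hp (hm F), fun h => PP_mul _ _ (intCast_mem _ _) h⟩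
  rw [← hiff F, ← hmt, h1, cancel_prod hp, hmt, hiff]
  · intro l hl
    obtain ⟨y1, hy1, e1⟩ := du_pi hp hX' (frob F' l) χ
    obtain ⟨y2, hy2, e2⟩ := du_pi hp hX' (frob F' l)⁻¹ χ
    refine ⟨-(cnt W l : ℤ), -(l * y1 + y2), fun h3 => ?_, ?_, ?_⟩
    · rw [dvd_neg] at h3
      exact (F.adm l (Finset.mem_sdiff.1 hl).1).2.2 (by exact_mod_cast h3)
    · exact (Oz hp n).neg_mem ((Oz hp n).add_mem ((Oz hp n).mul_mem (natCast_mem _ l) hy1) hy2)
    · unfold VV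
      rw [map_sub, map_sub, map_mul, map_intCast, map_natCast, chi_of, chi_of, al_cast]
      push_cast
      linear_combination (-(l : ℂ)) * e1 - e2
  · exact chi_Oz hp hX' _ _

end fields

end Pool.Agent.K9h35.MZ
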